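import Pool.Agent.H89.LS.BLKTool

/-!
# One dyadic block for all data (MP_ee74d2_an, module BLK)
-/

set_option autoImplicit false

namespace Pool.Agent.H89.LS

open MeasureTheory Set Metric FourierTransform
open scoped ENNReal NNReal SchwartzMap
open Pool.Agent.H83.LS

/-- the piece `T^m f` in `L^p`, from a bound for `wa` with a general decay `Φ` in `a` -/
theorem piece_core (hKERN : T_KERN) (hINVA : T_INVA) (hYG : T_YG) (hANG : T_ANG)
    (hROT : T_ROT) (n : ℕ) (p η : ℝ) (hn : 2 ≤ n) (hp : 2 + 2 / (n : ℝ) ≤ p)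
    (N : ℕ) (C₂ : ℝ≥0) (Φ : EE n → ℝ) (_ : ∀ a, 0 ≤ Φ a)
    (hΦ : ∀ a, (1 + ‖a‖) ^ (((n : ℝ) + 1) * (p - 1)) * (((1 + ‖a‖) ^ (n + 2)) ^ p * Φ a) ≤
      (1 + ‖a‖) ^ (-((n : ℝ) + 1)))
    (hC₂ : ∀ (lam Lam : ℝ) (f : 𝓢(EE (n + 1), ℂ)) (a : EE n) (B : ℝ≥0∞),
      1 ≤ lam → 0 < Lam → Lam ≤ 4 * lam →
      (∀ w : List (Fin n × Fin n), w.length ≤ N → ∫⁻ x, ‖rotW w f x‖ₑ ^ p ≤ B) →
      ∫⁻ t in Icc (1 : ℝ) 2, ∫⁻ x, ‖wa lam Lam t (𝓕 (f : EE (n + 1) → ℂ)) a x‖ₑ ^ p ≤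
        C₂ * ENNReal.ofReal (lam ^ ((n : ℝ) * (p / 2 - 1) - 1 + η) * Φ a) * B) :
    ∃ C : ℝ≥0, ∀ (lam Lam : ℝ) (f : 𝓢(EE (n + 1), ℂ)) (B : ℝ≥0∞), 1 ≤ lam →
    0 < Lam → Lam ≤ 4 * lam →
    (∀ w : List (Fin n × Fin n), w.length ≤ N → ∫⁻ x, ‖rotW w f x‖ₑ ^ p ≤ B) →
    ∫⁻ t in Icc (1 : ℝ) 2, ∫⁻ x, ‖MK (fun ξ => e (t * ‖ξ‖) * qs lam Lam ξ *
      𝓕 (f : EE (n + 1) → ℂ) ξ) x‖ₑ ^ p ≤
      C * ENNReal.ofReal (lam ^ ((n : ℝ) * (p / 2 - 1) - 1 + η)) * B := by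
  have hn0 : (0 : ℝ) < n := by
    have : (2 : ℝ) ≤ n := by exact_mod_cast hn
    linarith
  have hp2 : 2 < p := by
    have : 0 < 2 / (n : ℝ) := by positivity
    linarith
  obtain ⟨C₁, hC₁⟩ := hKERN n hn (fun y : EE n => ((chis ‖y‖ : ℝ) : ℂ))
    (fun s => ((chis s : ℝ) : ℂ)) (fun s => ((chis s : ℝ) : ℂ)) AN_chis CB_chis CB_chis
  set J : ℝ≥0∞ := ∫⁻ a : EE n, ENNReal.ofReal ((1 + ‖a‖) ^ (-((n : ℝ) + 1))) with hJ
  have hJfin : J ≠ ⊤ := by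
    have h : Integrable (fun a : EE n => (1 + ‖a‖) ^ (-((n : ℝ) + 1))) := by
      apply integrable_one_add_norm
      rw [finrank_euclideanSpace_fin]
      linarith
    have h2 := h.lintegral_lt_top
    exact h2.ne
  refine ⟨J.toNNReal ^ (p - 1) * (C₁ ^ p * C₂ * J.toNNReal), ?_⟩
  intro lam Lam f B hlam hLam hLl hB
  have hlam0 : 0 < lam := by linarith
  set G : 𝓢(EE (n + 1), ℂ) := 𝓕 f with hG
  have hGf : 𝓕 (f : EE (n + 1) → ℂ) = (G : EE (n + 1) → ℂ) := by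
    rw [hG, SchwartzMap.fourier_coe]
  have hGm : Measurable (G : EE (n + 1) → ℂ) := G.continuous.measurable
  obtain ⟨D, hD0, hD⟩ := ca_decay hANG hROT (by omega) G
  have hDb : ∀ (a : EE n) (s η : ℝ), ‖ca G a s η‖ ≤ D := by
    intro a s η
    refine (hD a s η).trans ?_
    have : (1 + ‖a‖) ^ (-((n : ℝ) + 1)) ≤ 1 := by
      apply Real.rpow_le_one_of_one_le_of_nonpos
      · linarith [norm_nonneg a]
      · linarith
    nlinarith
  have hKfin : ∀ a : EE n, ∫⁻ x, ‖MK (Ks (n := n) lam Lam a) x‖ₑ ≤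
      C₁ * ENNReal.ofReal ((1 + ‖a‖) ^ (n + 2)) := by
    intro a
    exact hC₁ a 1 lam Lam (by norm_num) (by norm_num) hLam hLl
  -- the function H
  set H : ℝ × EE n → EE (n + 1) → ℂ := fun ta x =>
    MK (fun ξ => Ks lam Lam ta.2 ξ * bs lam Lam ta.1 G ta.2 ξ) x with hH
  have hHm : Measurable (fun q : (ℝ × EE n) × EE (n + 1) => H q.1 q.2) := by
    apply MK_measurable_param (α := ℝ × EE n)
      (b := fun ta ξ => Ks lam Lam ta.2 ξ * bs lam Lam ta.1 G ta.2 ξ)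
    refine Measurable.mul ?_ (bs_measurable (n := n) hGm lam Lam)
    exact (Ks_measurable (n := n) lam Lam).comp (g := fun q : EE n × EE (n + 1) =>
          Ks lam Lam q.1 q.2) (f := fun q : (ℝ × EE n) × EE (n + 1) => (q.1.2, q.2)) (by fun_prop)
  set wt : EE n → ℝ≥0∞ := fun a => ENNReal.ofReal ((1 + ‖a‖) ^ (((n : ℝ) + 1) * (p - 1))) with hwt
  have hwtm : Measurable wt := by fun_prop
  -- pointwise bound
  have hpt : ∀ (t : ℝ) (x : EE (n + 1)), ‖MK (fun ξ => e (t * ‖ξ‖) * qs lam Lam ξ *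
      𝓕 (f : EE (n + 1) → ℂ) ξ) x‖ₑ ^ p ≤ J ^ (p - 1) * ∫⁻ a, wt a * ‖H (t, a) x‖ₑ ^ p := by
    intro t x
    rw [hGf, piece_eq hINVA hANG hROT (by omega) hlam0 hLam t G x]
    have h1 : Measurable (fun a : EE n => ‖H (t, a) x‖ₑ) := by
      have := hHm.comp (g := fun q : (ℝ × EE n) × EE (n + 1) => H q.1 q.2)
        (f := fun a : EE n => ((t, a), x)) (by fun_prop)
      exact this.enorm
    refine le_trans (ENNReal.rpow_le_rpow (enorm_integral_le_lintegral_enorm _) (by linarith)) ?_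
    exact holder_a (by linarith) (fun a => ‖H (t, a) x‖ₑ) h1
  have hHe : Measurable (fun q : (ℝ × EE n) × EE (n + 1) => wt q.1.2 * ‖H q.1 q.2‖ₑ ^ p) :=
    (hwtm.comp (measurable_snd.comp measurable_fst)).mul (hHm.enorm.pow_const p)
  -- exchange of integrals
  have hex : ∫⁻ t in Icc (1 : ℝ) 2, ∫⁻ x, ∫⁻ a, wt a * ‖H (t, a) x‖ₑ ^ p =
      ∫⁻ a, wt a * ∫⁻ t in Icc (1 : ℝ) 2, ∫⁻ x, ‖H (t, a) x‖ₑ ^ p := by
    have h1 : ∀ t : ℝ, ∫⁻ x, ∫⁻ a, wt a * ‖H (t, a) x‖ₑ ^ p =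
        ∫⁻ a, wt a * ∫⁻ x, ‖H (t, a) x‖ₑ ^ p := by
      intro t
      rw [lintegral_lintegral_swap]
      · refine lintegral_congr fun a => ?_
        rw [lintegral_const_mul]
        have := hHm.comp (g := fun q : (ℝ × EE n) × EE (n + 1) => H q.1 q.2)
          (f := fun x : EE (n + 1) => ((t, a), x)) (by fun_prop)
        exact this.enorm.pow_const p
      · have := hHe.comp (g := fun q : (ℝ × EE n) × EE (n + 1) => wt q.1.2 * ‖H q.1 q.2‖ₑ ^ p)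
          (f := fun z : EE (n + 1) × EE n => ((t, z.2), z.1)) (by fun_prop)
        exact this.aemeasurable
    simp_rw [h1]
    have hm3 : Measurable (fun ta : ℝ × EE n => ∫⁻ x, ‖H ta x‖ₑ ^ p) :=
      (hHm.enorm.pow_const p).lintegral_prod_right'
    rw [lintegral_lintegral_swap]
    · refine lintegral_congr fun a => ?_
      rw [lintegral_const_mul]
      exact hm3.comp (g := fun ta : ℝ × EE n => ∫⁻ x, ‖H ta x‖ₑ ^ p) (f := fun t : ℝ => (t, a))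
        (by fun_prop)
    · exact ((hwtm.comp measurable_snd).mul hm3).aemeasurable
  -- bound for each `a`
  have hfa : ∀ a : EE n, wt a * ∫⁻ t in Icc (1 : ℝ) 2, ∫⁻ x, ‖H (t, a) x‖ₑ ^ p ≤
      ((C₁ : ℝ≥0∞) ^ p * C₂ * ENNReal.ofReal (lam ^ ((n : ℝ) * (p / 2 - 1) - 1 + η)) * B) *
        ENNReal.ofReal ((1 + ‖a‖) ^ (-((n : ℝ) + 1))) := by
    intro a
    have hpos : 0 < 1 + ‖a‖ := by positivity
    have hone : 1 ≤ 1 + ‖a‖ := by linarith [norm_nonneg a]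
    have h1 : ∀ t : ℝ, ∫⁻ x, ‖H (t, a) x‖ₑ ^ p ≤
        (C₁ * ENNReal.ofReal ((1 + ‖a‖) ^ (n + 2))) ^ p * ∫⁻ x, ‖wa lam Lam t G a x‖ₑ ^ p := by
      intro t
      refine (young_a hYG (by linarith) hlam0 hLam hGm (hDb a)
        (ne_top_of_le_ne_top (by finiteness) (hKfin a))).trans ?_
      gcongr
      exact hKfin a
    have h2 : ∫⁻ t in Icc (1 : ℝ) 2, ∫⁻ x, ‖H (t, a) x‖ₑ ^ p ≤
        (C₁ * ENNReal.ofReal ((1 + ‖a‖) ^ (n + 2))) ^ p *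
          (C₂ * ENNReal.ofReal (lam ^ ((n : ℝ) * (p / 2 - 1) - 1 + η) * Φ a) * B) := by
      refine (lintegral_mono fun t => h1 t).trans ?_
      rw [lintegral_const_mul' _ _ (by
        apply ENNReal.rpow_ne_top_of_nonneg (by linarith)
        finiteness)]
      gcongr
      have := hC₂ lam Lam f a B hlam hLam hLl hB
      rw [hGf] at this
      exact this
    have h3 : wt a * ((ENNReal.ofReal ((1 + ‖a‖) ^ (n + 2))) ^ p *
        ENNReal.ofReal (Φ a)) ≤ ENNReal.ofReal ((1 + ‖a‖) ^ (-((n : ℝ) + 1))) := by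
      rw [hwt]
      simp only
      rw [ENNReal.ofReal_rpow_of_nonneg (by positivity) (by linarith),
        ← ENNReal.ofReal_mul (by positivity), ← ENNReal.ofReal_mul (by positivity)]
      exact ENNReal.ofReal_le_ofReal (hΦ a)
    calc wt a * ∫⁻ t in Icc (1 : ℝ) 2, ∫⁻ x, ‖H (t, a) x‖ₑ ^ p
        ≤ wt a * ((C₁ * ENNReal.ofReal ((1 + ‖a‖) ^ (n + 2))) ^ p *
          (C₂ * ENNReal.ofReal (lam ^ ((n : ℝ) * (p / 2 - 1) - 1 + η) * Φ a) * B)) :=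
          mul_le_mul_right h2 _
      _ = ((C₁ : ℝ≥0∞) ^ p * C₂ * ENNReal.ofReal (lam ^ ((n : ℝ) * (p / 2 - 1) - 1 + η)) * B) *
          (wt a * ((ENNReal.ofReal ((1 + ‖a‖) ^ (n + 2))) ^ p *
            ENNReal.ofReal (Φ a))) := by
          rw [ENNReal.mul_rpow_of_nonneg _ _ (by linarith), ENNReal.ofReal_mul (by positivity)]
          ring
      _ ≤ _ := mul_le_mul_right h3 _
  calc ∫⁻ t in Icc (1 : ℝ) 2, ∫⁻ x, ‖MK (fun ξ => e (t * ‖ξ‖) * qs lam Lam ξ *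
      𝓕 (f : EE (n + 1) → ℂ) ξ) x‖ₑ ^ p
      ≤ ∫⁻ t in Icc (1 : ℝ) 2, ∫⁻ x, J ^ (p - 1) * ∫⁻ a, wt a * ‖H (t, a) x‖ₑ ^ p :=
        lintegral_mono fun t => lintegral_mono fun x => hpt t x
    _ = J ^ (p - 1) * ∫⁻ t in Icc (1 : ℝ) 2, ∫⁻ x, ∫⁻ a, wt a * ‖H (t, a) x‖ₑ ^ p := by
        have hJp : J ^ (p - 1) ≠ ⊤ := ENNReal.rpow_ne_top_of_nonneg (by linarith) hJfin
        rw [← lintegral_const_mul' _ _ hJp]
        refine lintegral_congr fun t => ?_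
        rw [lintegral_const_mul' _ _ hJp]
    _ ≤ J ^ (p - 1) * (((C₁ : ℝ≥0∞) ^ p * C₂ *
        ENNReal.ofReal (lam ^ ((n : ℝ) * (p / 2 - 1) - 1 + η)) * B) * J) := by
        rw [hex]
        gcongr
        refine (lintegral_mono fun a => hfa a).trans ?_
        rw [lintegral_const_mul _ (by fun_prop)]
    _ = _ := by
        push_cast
        rw [ENNReal.coe_rpow_of_nonneg _ (by linarith), ENNReal.coe_rpow_of_nonneg _ (by linarith),
          ENNReal.coe_toNNReal hJfin]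
        ring

/-- the piece `T^m f` in `L^p` -/
theorem piece_bound (hWA : T_WA) (hKERN : T_KERN) (hINVA : T_INVA) (hYG : T_YG) (hANG : T_ANG)
    (hROT : T_ROT) (n : ℕ) (p η : ℝ) (hn : 2 ≤ n) (hp : 2 + 2 / (n : ℝ) ≤ p) (hη : 0 < η) :
    ∃ (N : ℕ) (C : ℝ≥0), ∀ (lam Lam : ℝ) (f : 𝓢(EE (n + 1), ℂ)) (B : ℝ≥0∞), 1 ≤ lam →
    0 < Lam → Lam ≤ 4 * lam →
    (∀ w : List (Fin n × Fin n), w.length ≤ N → ∫⁻ x, ‖rotW w f x‖ₑ ^ p ≤ B) →
    ∫⁻ t in Icc (1 : ℝ) 2, ∫⁻ x, ‖MK (fun ξ => e (t * ‖ξ‖) * qs lam Lam ξ *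
      𝓕 (f : EE (n + 1) → ℂ) ξ) x‖ₑ ^ p ≤
      C * ENNReal.ofReal (lam ^ ((n : ℝ) * (p / 2 - 1) - 1 + η)) * B := by
  obtain ⟨N, C₂, hC₂⟩ := hWA n p η (⌈((n : ℝ) + 1) * (p - 1) + ((n : ℝ) + 2) * p⌉₊ + (n + 1))
    hn hp hη
  obtain ⟨C, hC⟩ := piece_core hKERN hINVA hYG hANG hROT n p η hn hp N C₂
    (fun a => ((1 + ‖a‖) ^ (⌈((n : ℝ) + 1) * (p - 1) + ((n : ℝ) + 2) * p⌉₊ + (n + 1)))⁻¹)
    (fun a => by positivity) (fun a => by
      have hpos : 0 < 1 + ‖a‖ := by positivity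
      have hone : 1 ≤ 1 + ‖a‖ := by linarith [norm_nonneg a]
      rw [← Real.rpow_natCast, ← Real.rpow_natCast, ← Real.rpow_mul hpos.le,
        ← Real.rpow_neg hpos.le, ← Real.rpow_add hpos, ← Real.rpow_add hpos]
      apply Real.rpow_le_rpow_of_exponent_le hone
      have h4 := Nat.le_ceil (((n : ℝ) + 1) * (p - 1) + ((n : ℝ) + 2) * p)
      push_cast
      linarith) hC₂
  exact ⟨N, C, hC⟩

/-- the piece `T^m f` in `L^p`, explicit number of derivatives -/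
theorem piece_bound_e (hWAe : T_WAe) (hKERN : T_KERN) (hINVA : T_INVA) (hYG : T_YG) (hANG : T_ANG)
    (hROT : T_ROT) (n : ℕ) (p η : ℝ) (hn : 2 ≤ n) (hp : 2 + 2 / (n : ℝ) ≤ p) (hη : 0 < η) :
    ∃ C : ℝ≥0, ∀ (lam Lam : ℝ) (f : 𝓢(EE (n + 1), ℂ)) (B : ℝ≥0∞), 1 ≤ lam →
    0 < Lam → Lam ≤ 4 * lam →
    (∀ w : List (Fin n × Fin n), w.length ≤ 3 * n + 5 → ∫⁻ x, ‖rotW w f x‖ₑ ^ p ≤ B) →
    ∫⁻ t in Icc (1 : ℝ) 2, ∫⁻ x, ‖MK (fun ξ => e (t * ‖ξ‖) * qs lam Lam ξ *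
      𝓕 (f : EE (n + 1) → ℂ) ξ) x‖ₑ ^ p ≤
      C * ENNReal.ofReal (lam ^ ((n : ℝ) * (p / 2 - 1) - 1 + η)) * B := by
  obtain ⟨C₂, hC₂⟩ := hWAe n p η (2 * n + 3) hn hp hη
  have hlen : 2 * n + 3 + n + 2 = 3 * n + 5 := by ring
  rw [hlen] at hC₂
  exact piece_core hKERN hINVA hYG hANG hROT n p η hn hp (3 * n + 5) C₂
    (fun a => (((1 + ‖a‖) ^ (2 * n + 3)) ^ p)⁻¹)
    (fun a => by positivity) (fun a => by
      have hpos : 0 < 1 + ‖a‖ := by positivity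
      rw [← Real.rpow_natCast, ← Real.rpow_natCast, ← Real.rpow_mul hpos.le,
        ← Real.rpow_mul hpos.le, ← Real.rpow_neg hpos.le, ← Real.rpow_add hpos,
        ← Real.rpow_add hpos]
      apply le_of_eq
      congr 1
      push_cast
      ring) hC₂

/-- the low part -/
theorem low_bound (hLOWX : T_LOWX) (hYG : T_YG) (hPLE : T_PLE) (n : ℕ) (hn : 2 ≤ n) :
    ∃ C : ℝ≥0, ∀ (p lam : ℝ) (f : 𝓢(EE (n + 1), ℂ)), 1 ≤ p → 1 ≤ lam →
    ∫⁻ t in Icc (1 : ℝ) 2, ∫⁻ x, ‖MM (fun ξ => e (t * ‖ξ‖) *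
      ((chi (‖ξ‖ / lam) * eta0 (hor ξ) : ℝ) : ℂ)) f x‖ₑ ^ p ≤
      (C : ℝ≥0∞) ^ p * ∫⁻ x, ‖f x‖ₑ ^ p := by
  obtain ⟨C, hC⟩ := hLOWX n hn
  refine ⟨C, fun p lam f hp hlam => ?_⟩
  have hlam0 : 0 < lam := by linarith
  have key : ∀ t ∈ Icc (1 : ℝ) 2, ∫⁻ x, ‖MM (fun ξ => e (t * ‖ξ‖) *
      ((chi (‖ξ‖ / lam) * eta0 (hor ξ) : ℝ) : ℂ)) f x‖ₑ ^ p ≤
      (C : ℝ≥0∞) ^ p * ∫⁻ x, ‖f x‖ₑ ^ p := by
    intro t ht
    set m : EE (n + 1) → ℂ := fun ξ => e (t * ‖ξ‖) *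
      ((chi (‖ξ‖ / lam) * eta0 (hor ξ) : ℝ) : ℂ) with hm
    have hmc : Continuous m := by
      rw [hm]
      refine (continuous_e.comp (by fun_prop)).mul (Complex.continuous_ofReal.comp ?_)
      exact (chi_contDiff.continuous.comp (by fun_prop)).mul
        (eta0_contDiff.continuous.comp continuous_hor)
    have hmb : ∀ ξ, ‖m ξ‖ ≤ 1 := by
      intro ξ
      rw [hm]
      simp only
      rw [norm_mul, norm_e, one_mul, Complex.norm_real, Real.norm_eq_abs, abs_mul]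
      calc |chi (‖ξ‖ / lam)| * |eta0 (hor ξ)| ≤ 1 * 1 := by
            refine mul_le_mul (chi_abs_le _) ?_ (abs_nonneg _) zero_le_one
            rw [abs_of_nonneg (eta0_nonneg _)]; exact eta0_le_one _
        _ = 1 := one_mul 1
    have hmi : Integrable m := by
      refine integrable_of_ball hmc.measurable hmb (R := 2 * lam) fun ξ h => ?_
      have h1 : chi (‖ξ‖ / lam) ≠ 0 := fun hc => h (by rw [hm]; simp [hc])
      have := (chi_supp h1).2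
      rwa [div_le_iff₀ hlam0] at this
    obtain ⟨A, hA⟩ := f.decay' 0 0
    simp only [pow_zero, one_mul, norm_iteratedFDeriv_zero] at hA
    have h1 := (hPLE (n + 1) m f hmc.measurable hmb hmi f.integrable ⟨A, hA⟩
      f.continuous.measurable).1
    have hY := hYG (EE (n + 1)) volume (fun x => ‖MK m x‖ₑ)
      (fun x => ‖f x‖ₑ) p (MK_measurable hmc.measurable).enorm f.continuous.measurable.enorm hp
    calc ∫⁻ x, ‖MM m f x‖ₑ ^ p ≤ ∫⁻ x, (∫⁻ y, ‖MK m (x - y)‖ₑ * ‖f y‖ₑ) ^ p := by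
          refine lintegral_mono fun x => ?_
          apply ENNReal.rpow_le_rpow _ (by linarith)
          rw [h1 x]
          refine (enorm_integral_le_lintegral_enorm _).trans (lintegral_mono fun y => ?_)
          rw [enorm_mul]
      _ ≤ (∫⁻ x, ‖MK m x‖ₑ) ^ p * ∫⁻ x, ‖f x‖ₑ ^ p := hY
      _ ≤ _ := by
          gcongr
          exact hC lam t hlam ht
  calc _ ≤ ∫⁻ t in Icc (1 : ℝ) 2, (C : ℝ≥0∞) ^ p * ∫⁻ x, ‖f x‖ₑ ^ p :=
        setLIntegral_mono' measurableSet_Icc key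
    _ = _ := by
        rw [setLIntegral_const, Real.volume_Icc]
        norm_num

/-- the splitting of the symbol -/
theorem split_symbol {n : ℕ} {lam t : ℝ} (hlam : 0 < lam) (M : ℕ) (hM : 2 * lam ≤ 2 ^ M)
    (ξ : EE (n + 1)) : mT lam t ξ = e (t * ‖ξ‖) * ((chi (‖ξ‖ / lam) * eta0 (hor ξ) : ℝ) : ℂ) +
      ∑ m ∈ Finset.range M, e (t * ‖ξ‖) * qs lam (2 ^ (m + 1)) ξ := by
  unfold mT qs
  by_cases h : chi (‖ξ‖ / lam) = 0
  · rw [h]; simp
  · have h1 : hor ξ ≤ 2 ^ M := by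
      have := (chi_supp h).2
      rw [div_le_iff₀ hlam] at this
      linarith [hor_le ξ]
    have h2 := telescope (hor ξ) M h1
    rw [← Finset.mul_sum, ← mul_add]
    congr 1
    rw [← Complex.ofReal_sum, ← Complex.ofReal_add]
    congr 1
    rw [← Finset.mul_sum, ← mul_add, h2, mul_one]

/-- number of dyadic blocks -/
theorem blocks_bound (δ : ℝ) (hδ : 0 < δ) : ∃ C : ℝ, 0 ≤ C ∧ ∀ (lam : ℝ) (M : ℕ), 1 ≤ lam →
    (2 : ℝ) ^ M ≤ 4 * lam → (M : ℝ) + 1 ≤ C * lam ^ δ := by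
  set h : ℝ := 2 ^ δ - 1 with hh
  have h0 : 0 < h := by
    have : 1 < (2 : ℝ) ^ δ := Real.one_lt_rpow (by norm_num) hδ
    linarith
  refine ⟨(1 + 1 / h) * 4 ^ δ, by positivity, fun lam M hlam hM => ?_⟩
  have h1 : (M : ℝ) + 1 ≤ (1 + 1 / h) * (1 + h) ^ M := by
    have h2 := one_add_mul_le_pow (show (-2 : ℝ) ≤ h by linarith) M
    calc (M : ℝ) + 1 ≤ (1 + 1 / h) * (1 + M * h) := by
          have : (1 + 1 / h) * (1 + M * h) = M + 1 + M * h + 1 / h := by field_simp; ring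
          rw [this]
          have : 0 ≤ M * h := by positivity
          have : 0 ≤ 1 / h := by positivity
          linarith
      _ ≤ _ := mul_le_mul_of_nonneg_left h2 (by positivity)
  have h3 : (1 + h) ^ M ≤ 4 ^ δ * lam ^ δ := by
    rw [hh, add_sub_cancel, ← Real.rpow_natCast, ← Real.rpow_mul (by norm_num), mul_comm δ,
      Real.rpow_mul (by norm_num), Real.rpow_natCast, ← Real.mul_rpow (by norm_num) (by linarith)]
    exact Real.rpow_le_rpow (by positivity) hM hδ.le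
  calc (M : ℝ) + 1 ≤ (1 + 1 / h) * (1 + h) ^ M := h1
    _ ≤ (1 + 1 / h) * (4 ^ δ * lam ^ δ) := mul_le_mul_of_nonneg_left h3 (by positivity)
    _ = _ := by ring

/-- one dyadic block from the bound of the pieces -/
theorem block_core (hLOWX : T_LOWX) (hYG : T_YG) (hPLE : T_PLE)
    (n : ℕ) (p η : ℝ) (hn : 2 ≤ n) (hp : 2 + 2 / (n : ℝ) ≤ p) (hη : 0 < η) (N : ℕ)
    (hpiece : ∃ C : ℝ≥0, ∀ (lam Lam : ℝ) (f : 𝓢(EE (n + 1), ℂ)) (B : ℝ≥0∞), 1 ≤ lam →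
      0 < Lam → Lam ≤ 4 * lam →
      (∀ w : List (Fin n × Fin n), w.length ≤ N → ∫⁻ x, ‖rotW w f x‖ₑ ^ p ≤ B) →
      ∫⁻ t in Icc (1 : ℝ) 2, ∫⁻ x, ‖MK (fun ξ => e (t * ‖ξ‖) * qs lam Lam ξ *
        𝓕 (f : EE (n + 1) → ℂ) ξ) x‖ₑ ^ p ≤
        C * ENNReal.ofReal (lam ^ ((n : ℝ) * (p / 2 - 1) - 1 + η / 2)) * B) :
    ∃ C : ℝ≥0, ∀ (lam : ℝ) (f : 𝓢(EE (n + 1), ℂ)) (B : ℝ≥0∞), 1 ≤ lam →
    (∀ w : List (Fin n × Fin n), w.length ≤ N → ∫⁻ x, ‖rotW w f x‖ₑ ^ p ≤ B) →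
    ∫⁻ t in Icc (1 : ℝ) 2, ∫⁻ x, ‖MM (mT lam t) f x‖ₑ ^ p ≤
      C * ENNReal.ofReal (lam ^ ((n : ℝ) * (p / 2 - 1) - 1 + η)) * B := by
  have hn0 : (0 : ℝ) < n := by
    have : (2 : ℝ) ≤ n := by exact_mod_cast hn
    linarith
  have hp2 : 2 < p := by
    have : 0 < 2 / (n : ℝ) := by positivity
    linarith
  have hE : 0 ≤ (n : ℝ) * (p / 2 - 1) - 1 := by
    have h1 : 2 / (n : ℝ) ≤ p - 2 := by linarith
    rw [div_le_iff₀ hn0] at h1
    nlinarith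
  obtain ⟨C₁, hC₁⟩ := hpiece
  obtain ⟨C₀, hC₀⟩ := low_bound hLOWX hYG hPLE n hn
  obtain ⟨C₂, hC₂0, hC₂⟩ := blocks_bound (η / (2 * p)) (by positivity)
  refine ⟨C₂.toNNReal ^ p * (C₀ ^ p + C₁), fun lam f B hlam hB => ?_⟩
  have hlam0 : 0 < lam := by linarith
  obtain ⟨k, hk1, hk2⟩ := exists_nat_pow_near (x := 2 * lam) (y := 2) (by linarith) (by norm_num)
  obtain ⟨M, hM1, hM2⟩ : ∃ M : ℕ, 2 * lam ≤ 2 ^ M ∧ (2 : ℝ) ^ M ≤ 4 * lam :=
    ⟨k + 1, hk2.le, by rw [pow_succ]; linarith⟩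
  -- the functions
  set T₀ : ℝ → EE (n + 1) → ℂ := fun t x => MM (fun ξ => e (t * ‖ξ‖) *
      ((chi (‖ξ‖ / lam) * eta0 (hor ξ) : ℝ) : ℂ)) f x with hT₀
  set T : ℕ → ℝ → EE (n + 1) → ℂ := fun m t x => MK (fun ξ => e (t * ‖ξ‖) *
      qs lam (2 ^ (m + 1)) ξ * 𝓕 (f : EE (n + 1) → ℂ) ξ) x with hT
  have hFi : Integrable (𝓕 (f : EE (n + 1) → ℂ)) := by
    rw [← SchwartzMap.fourier_coe]; exact (𝓕 f : 𝓢(EE (n + 1), ℂ)).integrable
  have hFm : Measurable (𝓕 (f : EE (n + 1) → ℂ)) := by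
    rw [← SchwartzMap.fourier_coe]; exact (𝓕 f : 𝓢(EE (n + 1), ℂ)).continuous.measurable
  have hdecomp : ∀ (t : ℝ) (x : EE (n + 1)), MM (mT lam t) f x =
      T₀ t x + ∑ m ∈ Finset.range M, T m t x := by
    intro t x
    have hlow : Integrable (fun ξ : EE (n + 1) => e (inner ℝ x ξ) * (e (t * ‖ξ‖) *
        ((chi (‖ξ‖ / lam) * eta0 (hor ξ) : ℝ) : ℂ) * 𝓕 (f : EE (n + 1) → ℂ) ξ)) := by
      apply integrable_e_mul'
      apply hFi.bdd_mul (c := 1)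
      · refine Continuous.aestronglyMeasurable ?_
        refine (continuous_e.comp (by fun_prop)).mul (Complex.continuous_ofReal.comp ?_)
        exact (chi_contDiff.continuous.comp (by fun_prop)).mul
          (eta0_contDiff.continuous.comp continuous_hor)
      · refine Filter.Eventually.of_forall fun ξ => ?_
        rw [norm_mul, norm_e, one_mul, Complex.norm_real, Real.norm_eq_abs, abs_mul]
        calc |chi (‖ξ‖ / lam)| * |eta0 (hor ξ)| ≤ 1 * 1 := by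
              refine mul_le_mul (chi_abs_le _) ?_ (abs_nonneg _) zero_le_one
              rw [abs_of_nonneg (eta0_nonneg _)]; exact eta0_le_one _
          _ = 1 := one_mul 1
    have hpc : ∀ m : ℕ, Integrable (fun ξ : EE (n + 1) => e (inner ℝ x ξ) * (e (t * ‖ξ‖) *
        qs lam (2 ^ (m + 1)) ξ * 𝓕 (f : EE (n + 1) → ℂ) ξ)) := by
      intro m
      apply integrable_e_mul'
      apply hFi.bdd_mul (c := 1)
      · refine Continuous.aestronglyMeasurable ?_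
        exact (continuous_e.comp (by fun_prop)).mul (continuous_qs _ _)
      · refine Filter.Eventually.of_forall fun ξ => ?_
        rw [norm_mul, norm_e, one_mul]
        exact qs_norm_le _ _ _
    calc MM (mT lam t) f x = ∫ ξ : EE (n + 1), (e (inner ℝ x ξ) * (e (t * ‖ξ‖) *
        ((chi (‖ξ‖ / lam) * eta0 (hor ξ) : ℝ) : ℂ) * 𝓕 (f : EE (n + 1) → ℂ) ξ) +
        ∑ m ∈ Finset.range M, e (inner ℝ x ξ) * (e (t * ‖ξ‖) *
        qs lam (2 ^ (m + 1)) ξ * 𝓕 (f : EE (n + 1) → ℂ) ξ)) := by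
          unfold MM
          congr 1
          ext ξ
          rw [split_symbol hlam0 M hM1 ξ, add_mul, mul_add, Finset.sum_mul, Finset.mul_sum]
      _ = _ := by
          rw [integral_add hlow (integrable_finsetSum _ fun m _ => hpc m),
            integral_finsetSum _ fun m _ => hpc m]
          rfl
  -- measurability
  have hTm : ∀ m : ℕ, Measurable (fun q : ℝ × EE (n + 1) => ‖T m q.1 q.2‖ₑ ^ p) := by
    intro m
    have : Measurable (fun q : ℝ × EE (n + 1) => T m q.1 q.2) := by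
      apply MK_measurable_param (α := ℝ) (b := fun t ξ => e (t * ‖ξ‖) *
        qs lam (2 ^ (m + 1)) ξ * 𝓕 (f : EE (n + 1) → ℂ) ξ)
      refine Measurable.mul (Measurable.mul ?_ ?_) ?_
      · exact measurable_e.comp (by fun_prop)
      · exact (continuous_qs (n := n) _ _).measurable.comp measurable_snd
      · exact hFm.comp measurable_snd
    exact this.enorm.pow_const p
  have hT₀m : Measurable (fun q : ℝ × EE (n + 1) => ‖T₀ q.1 q.2‖ₑ ^ p) := by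
    have : Measurable (fun q : ℝ × EE (n + 1) => T₀ q.1 q.2) := by
      apply MK_measurable_param (α := ℝ) (b := fun t ξ => e (t * ‖ξ‖) *
        ((chi (‖ξ‖ / lam) * eta0 (hor ξ) : ℝ) : ℂ) * 𝓕 (f : EE (n + 1) → ℂ) ξ)
      refine Measurable.mul (Measurable.mul ?_ ?_) ?_
      · exact measurable_e.comp (by fun_prop)
      · refine Complex.measurable_ofReal.comp (Measurable.mul ?_ ?_)
        · exact chi_contDiff.continuous.measurable.comp (by fun_prop)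
        · exact (eta0_contDiff.continuous.comp continuous_hor).measurable.comp measurable_snd
      · exact hFm.comp measurable_snd
    exact this.enorm.pow_const p
  -- pointwise
  have hpt : ∀ (t : ℝ) (x : EE (n + 1)), ‖MM (mT lam t) f x‖ₑ ^ p ≤
      ((M + 1 : ℕ) : ℝ≥0∞) ^ (p - 1) *
        (‖T₀ t x‖ₑ ^ p + ∑ m ∈ Finset.range M, ‖T m t x‖ₑ ^ p) := by
    intro t x
    rw [hdecomp t x]
    set g : ℕ → ℝ≥0∞ := fun i => if i = M then ‖T₀ t x‖ₑ else ‖T i t x‖ₑ with hg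
    have h1 : ‖T₀ t x + ∑ m ∈ Finset.range M, T m t x‖ₑ ≤ ∑ i ∈ Finset.range (M + 1), g i := by
      rw [Finset.sum_range_succ, add_comm]
      refine (enorm_add_le _ _).trans (add_le_add ?_ ?_)
      · refine (enorm_sum_le _ _).trans (Finset.sum_le_sum fun i hi => ?_)
        rw [hg]
        simp only
        rw [if_neg (by have := Finset.mem_range.1 hi; omega)]
      · rw [hg]; simp
    refine (ENNReal.rpow_le_rpow h1 (by linarith)).trans ?_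
    refine (ENNReal.rpow_sum_le_const_mul_sum_rpow _ _ (by linarith)).trans (le_of_eq ?_)
    rw [Finset.card_range, Finset.sum_range_succ, add_comm (∑ i ∈ Finset.range M, g i ^ p)]
    congr 2
    · rw [hg]; simp
    · refine Finset.sum_congr rfl fun i hi => ?_
      rw [hg]
      simp only
      rw [if_neg (by have := Finset.mem_range.1 hi; omega)]
  set E : ℝ := (n : ℝ) * (p / 2 - 1) - 1 with hEdef
  have hMtop : (((M + 1 : ℕ) : ℝ≥0∞)) ^ (p - 1) ≠ ⊤ :=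
    ENNReal.rpow_ne_top_of_nonneg (by linarith) (ENNReal.natCast_ne_top _)
  have hBf : ∫⁻ x, ‖f x‖ₑ ^ p ≤ B := by
    have := hB [] (by simp)
    exact this
  have hlamE : (1 : ℝ≥0∞) ≤ ENNReal.ofReal (lam ^ (E + η / 2)) := by
    rw [ENNReal.one_le_ofReal]
    exact Real.one_le_rpow hlam (by positivity)
  have hsum : ∫⁻ t in Icc (1 : ℝ) 2, ∫⁻ x, (‖T₀ t x‖ₑ ^ p +
      ∑ m ∈ Finset.range M, ‖T m t x‖ₑ ^ p) ≤
      ((M + 1 : ℕ) : ℝ≥0∞) * (((C₀ : ℝ≥0∞) ^ p + C₁) * ENNReal.ofReal (lam ^ (E + η / 2)) * B) := by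
    have h1 : ∀ t : ℝ, ∫⁻ x, (‖T₀ t x‖ₑ ^ p + ∑ m ∈ Finset.range M, ‖T m t x‖ₑ ^ p) =
        (∫⁻ x, ‖T₀ t x‖ₑ ^ p) + ∑ m ∈ Finset.range M, ∫⁻ x, ‖T m t x‖ₑ ^ p := by
      intro t
      have hm1 : Measurable (fun x : EE (n + 1) => ‖T₀ t x‖ₑ ^ p) :=
        hT₀m.comp (g := fun q : ℝ × EE (n + 1) => ‖T₀ q.1 q.2‖ₑ ^ p)
          (f := fun x : EE (n + 1) => (t, x)) (by fun_prop)
      have hm2 : ∀ m : ℕ, Measurable (fun x : EE (n + 1) => ‖T m t x‖ₑ ^ p) := fun m =>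
        (hTm m).comp (g := fun q : ℝ × EE (n + 1) => ‖T m q.1 q.2‖ₑ ^ p)
          (f := fun x : EE (n + 1) => (t, x)) (by fun_prop)
      rw [lintegral_add_left hm1, lintegral_finsetSum _ (fun m _ => hm2 m)]
    simp_rw [h1]
    rw [lintegral_add_left (hT₀m.lintegral_prod_right'),
      lintegral_finsetSum _ (fun m _ => (hTm m).lintegral_prod_right')]
    have h2 : ∫⁻ t in Icc (1 : ℝ) 2, ∫⁻ x, ‖T₀ t x‖ₑ ^ p ≤
        ((C₀ : ℝ≥0∞) ^ p + C₁) * ENNReal.ofReal (lam ^ (E + η / 2)) * B := by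
      calc _ ≤ (C₀ : ℝ≥0∞) ^ p * B := by
            refine (hC₀ p lam f (by linarith) hlam).trans ?_
            gcongr
        _ = (C₀ : ℝ≥0∞) ^ p * 1 * B := by rw [mul_one]
        _ ≤ _ := by
            gcongr
            exact le_self_add
    have h3 : ∀ m ∈ Finset.range M, ∫⁻ t in Icc (1 : ℝ) 2, ∫⁻ x, ‖T m t x‖ₑ ^ p ≤
        ((C₀ : ℝ≥0∞) ^ p + C₁) * ENNReal.ofReal (lam ^ (E + η / 2)) * B := by
      intro m hm
      have hm' := Finset.mem_range.1 hm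
      have hle : (2 : ℝ) ^ (m + 1) ≤ 4 * lam :=
        (pow_le_pow_right₀ (by norm_num) (by omega)).trans hM2
      refine (hC₁ lam (2 ^ (m + 1)) f B hlam (by positivity) hle hB).trans ?_
      gcongr
      exact le_add_self
    calc _ ≤ ((C₀ : ℝ≥0∞) ^ p + C₁) * ENNReal.ofReal (lam ^ (E + η / 2)) * B +
          ∑ m ∈ Finset.range M, ((C₀ : ℝ≥0∞) ^ p + C₁) * ENNReal.ofReal (lam ^ (E + η / 2)) * B :=
          add_le_add h2 (Finset.sum_le_sum h3)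
      _ = _ := by
          rw [Finset.sum_const, Finset.card_range, nsmul_eq_mul]
          push_cast
          ring
  have hpow : ((M + 1 : ℕ) : ℝ≥0∞) ^ (p - 1) * ((M + 1 : ℕ) : ℝ≥0∞) ≤
      ENNReal.ofReal C₂ ^ p * ENNReal.ofReal (lam ^ (η / 2)) := by
    have h1 : ((M + 1 : ℕ) : ℝ≥0∞) ^ (p - 1) * ((M + 1 : ℕ) : ℝ≥0∞) = ((M + 1 : ℕ) : ℝ≥0∞) ^ p := by
      conv_lhs => rw [← ENNReal.rpow_one ((M + 1 : ℕ) : ℝ≥0∞), ← ENNReal.rpow_mul, one_mul]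
      rw [← ENNReal.rpow_add _ _ (by simp) (ENNReal.natCast_ne_top _)]
      congr 1
      ring
    have h2 : ((M + 1 : ℕ) : ℝ≥0∞) ≤ ENNReal.ofReal (C₂ * lam ^ (η / (2 * p))) := by
      rw [← ENNReal.ofReal_natCast]
      apply ENNReal.ofReal_le_ofReal
      have := hC₂ lam M hlam hM2
      push_cast
      exact this
    rw [h1]
    calc _ ≤ ENNReal.ofReal (C₂ * lam ^ (η / (2 * p))) ^ p := ENNReal.rpow_le_rpow h2 (by linarith)
      _ = _ := by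
          rw [ENNReal.ofReal_mul hC₂0, ENNReal.mul_rpow_of_nonneg _ _ (by linarith)]
          congr 1
          rw [ENNReal.ofReal_rpow_of_nonneg (by positivity) (by linarith), ← Real.rpow_mul hlam0.le]
          congr 2
          field_simp
  calc ∫⁻ t in Icc (1 : ℝ) 2, ∫⁻ x, ‖MM (mT lam t) f x‖ₑ ^ p
      ≤ ∫⁻ t in Icc (1 : ℝ) 2, ∫⁻ x, ((M + 1 : ℕ) : ℝ≥0∞) ^ (p - 1) *
        (‖T₀ t x‖ₑ ^ p + ∑ m ∈ Finset.range M, ‖T m t x‖ₑ ^ p) :=
        lintegral_mono fun t => lintegral_mono fun x => hpt t x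
    _ = ((M + 1 : ℕ) : ℝ≥0∞) ^ (p - 1) * ∫⁻ t in Icc (1 : ℝ) 2, ∫⁻ x,
        (‖T₀ t x‖ₑ ^ p + ∑ m ∈ Finset.range M, ‖T m t x‖ₑ ^ p) := by
        rw [← lintegral_const_mul' _ _ hMtop]
        refine lintegral_congr fun t => ?_
        rw [lintegral_const_mul' _ _ hMtop]
    _ ≤ ((M + 1 : ℕ) : ℝ≥0∞) ^ (p - 1) * (((M + 1 : ℕ) : ℝ≥0∞) *
        (((C₀ : ℝ≥0∞) ^ p + C₁) * ENNReal.ofReal (lam ^ (E + η / 2)) * B)) := by
        gcongr
    _ = (((M + 1 : ℕ) : ℝ≥0∞) ^ (p - 1) * ((M + 1 : ℕ) : ℝ≥0∞)) *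
        (((C₀ : ℝ≥0∞) ^ p + C₁) * ENNReal.ofReal (lam ^ (E + η / 2)) * B) := by ring
    _ ≤ (ENNReal.ofReal C₂ ^ p * ENNReal.ofReal (lam ^ (η / 2))) *
        (((C₀ : ℝ≥0∞) ^ p + C₁) * ENNReal.ofReal (lam ^ (E + η / 2)) * B) := by
        gcongr
    _ = _ := by
        have h1 : ENNReal.ofReal (lam ^ (η / 2)) * ENNReal.ofReal (lam ^ (E + η / 2)) =
            ENNReal.ofReal (lam ^ (E + η)) := by
          rw [← ENNReal.ofReal_mul (by positivity), ← Real.rpow_add hlam0]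
          congr 2
          ring
        rw [← h1]
        push_cast
        rw [ENNReal.coe_rpow_of_nonneg _ (by linarith), ENNReal.coe_rpow_of_nonneg _ (by linarith)]
        change _ = ENNReal.ofReal C₂ ^ p * _ * _ * _
        ring

/-- **BLK** -/
theorem blk (hWA : T_WA) (hKERN : T_KERN) (hINVA : T_INVA) (hLOWX : T_LOWX) (hYG : T_YG)
    (hPLE : T_PLE) (hANG : T_ANG) (hROT : T_ROT) : T_BLK := by
  intro n p η hn hp hη
  obtain ⟨N, hN⟩ := piece_bound hWA hKERN hINVA hYG hANG hROT n p (η / 2) hn hp (by positivity)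
  exact ⟨N, block_core hLOWX hYG hPLE n p η hn hp hη N hN⟩

/-- **BLKe** -/
theorem blke (hWAe : T_WAe) (hKERN : T_KERN) (hINVA : T_INVA) (hLOWX : T_LOWX) (hYG : T_YG)
    (hPLE : T_PLE) (hANG : T_ANG) (hROT : T_ROT) : T_BLKe := by
  intro n p η hn hp hη
  exact block_core hLOWX hYG hPLE n p η hn hp hη (3 * n + 5)
    (piece_bound_e hWAe hKERN hINVA hYG hANG hROT n p (η / 2) hn hp (by positivity))

end Pool.Agent.H89.LS
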