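import Pool.Agent.H83.LS.Targets1
import Pool.Agent.H83.LS.Basic

/-!
# One step of the induction on scales (MP_ee74d2_an, module IND)
-/

set_option autoImplicit false

namespace Pool.Agent.H89.LS

open MeasureTheory Set Metric
open scoped ENNReal NNReal
open Pool.Agent.H83.LS

/-- joint continuity of the evolution -/
theorem U_cont (a : ℝ) {b : ℝ × ℝ → ℂ} (hb : TC b) :
    Continuous (fun z : ℝ × (ℝ × ℝ) => U a z.1 b z.2) := by
  unfold U Fi
  refine continuous_of_dominated (bound := fun ζ => ‖b ζ‖) ?_ ?_ hb.integrable.norm ?_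
  · intro z
    have h1 : Measurable fun ζ : ℝ × ℝ => e (z.2.1 * ζ.1 + z.2.2 * ζ.2) := measurable_e.comp (by fun_prop)
    have h2 : Measurable fun ζ : ℝ × ℝ => e (z.1 * ph a ζ) := by
      refine measurable_e.comp ?_
      unfold ph
      fun_prop
    exact (h1.mul (h2.mul hb.1.continuous.measurable)).aestronglyMeasurable
  · intro z
    refine Filter.Eventually.of_forall fun ζ => ?_
    rw [norm_mul, norm_mul, norm_e, norm_e, one_mul, one_mul]
  · refine Filter.Eventually.of_forall fun ζ => ?_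
    have h1 : Continuous fun z : ℝ × (ℝ × ℝ) => e (z.2.1 * ζ.1 + z.2.2 * ζ.2) := continuous_e.comp (by fun_prop)
    have h2 : Continuous fun z : ℝ × (ℝ × ℝ) => e (z.1 * ph a ζ) := continuous_e.comp (by fun_prop)
    exact h1.mul (h2.mul continuous_const)

theorem vol_ball (x : ℝ × (ℝ × ℝ)) {ρ : ℝ} (hρ : 0 ≤ ρ) :
    volume (closedBall x ρ) = ENNReal.ofReal ((2 * ρ) ^ 3) := by
  obtain ⟨x1, x2, x3⟩ := x
  rw [← closedBall_prod_same, ← closedBall_prod_same, Measure.volume_eq_prod, Measure.prod_prod,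
    Measure.volume_eq_prod, Measure.prod_prod, Real.volume_closedBall, Real.volume_closedBall,
    Real.volume_closedBall, ← ENNReal.ofReal_mul (by positivity), ← ENNReal.ofReal_mul (by positivity)]
  congr 1
  ring

/-- averaging over cubes of radius `l` -/
theorem avg {f : ℝ × (ℝ × ℝ) → ℝ≥0∞} (hf : Measurable f) (z₀ : ℝ × (ℝ × ℝ)) {l r : ℝ} (hl : 0 < l) (hlr : l ≤ r) :
    ENNReal.ofReal (l ^ 3) * ∫⁻ z in closedBall z₀ r, f z ≤
      ∫⁻ w in closedBall z₀ r, ∫⁻ z in closedBall w l, f z := by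
  set B := closedBall z₀ r with hB
  have hk : Measurable fun p : (ℝ × (ℝ × ℝ)) × (ℝ × (ℝ × ℝ)) => (closedBall p.1 l).indicator f p.2 := by
    have : (fun p : (ℝ × (ℝ × ℝ)) × (ℝ × (ℝ × ℝ)) => (closedBall p.1 l).indicator f p.2) =
        {p : (ℝ × (ℝ × ℝ)) × (ℝ × (ℝ × ℝ)) | dist p.2 p.1 ≤ l}.indicator (fun p => f p.2) := by
      ext p
      simp only [indicator, mem_closedBall, mem_ofPred_eq]
    rw [this]
    refine (hf.comp measurable_snd).indicator ?_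
    exact (isClosed_le (by fun_prop) continuous_const).measurableSet
  have h1 : ∫⁻ w in B, ∫⁻ z in closedBall w l, f z = ∫⁻ w in B, ∫⁻ z, (closedBall w l).indicator f z := by
    congr 1; ext w
    rw [lintegral_indicator isClosed_closedBall.measurableSet]
  rw [h1, lintegral_lintegral_swap hk.aemeasurable, ← lintegral_const_mul _ hf]
  have h2 : ∀ z ∈ B, ENNReal.ofReal (l ^ 3) * f z ≤ ∫⁻ w in B, (closedBall w l).indicator f z := by
    intro z hz
    have h3 : ∀ w, (closedBall w l).indicator f z = (closedBall z l).indicator (fun _ => f z) w := by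
      intro w
      simp only [indicator, mem_closedBall, dist_comm z w]
    simp only [h3]
    rw [lintegral_indicator isClosed_closedBall.measurableSet, setLIntegral_const, mul_comm,
      Measure.restrict_apply isClosed_closedBall.measurableSet]
    gcongr
    -- a ball of radius l/2 in the intersection
    have hex : ∃ z' : ℝ × (ℝ × ℝ), closedBall z' (l / 2) ⊆ closedBall z l ∩ B := by
      rcases le_or_gt (dist z z₀) (r - l / 2) with h | h
      · refine ⟨z, subset_inter (closedBall_subset_closedBall (by linarith)) (closedBall_subset_closedBall' ?_)⟩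
        linarith
      · have hpos : 0 < dist z z₀ := by linarith
        refine ⟨z + (l / 2 / dist z z₀) • (z₀ - z), subset_inter (closedBall_subset_closedBall' ?_)
          (closedBall_subset_closedBall' ?_)⟩
        · rw [dist_eq_norm, add_sub_cancel_left, norm_smul, Real.norm_eq_abs, abs_of_pos (by positivity),
            ← dist_eq_norm, dist_comm z₀ z, div_mul_cancel₀ _ hpos.ne']
          linarith
        · have e1 : z + (l / 2 / dist z z₀) • (z₀ - z) - z₀ = (1 - l / 2 / dist z z₀) • (z - z₀) := by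
            rw [sub_smul, one_smul, smul_sub, smul_sub]; abel
          have h4 : 0 ≤ 1 - l / 2 / dist z z₀ := by
            rw [sub_nonneg, div_le_one hpos]; linarith
          rw [dist_eq_norm, e1, norm_smul, Real.norm_eq_abs, abs_of_nonneg h4, ← dist_eq_norm, sub_mul,
            div_mul_cancel₀ _ hpos.ne', one_mul]
          have := mem_closedBall.1 hz
          linarith
    obtain ⟨z', hz'⟩ := hex
    calc ENNReal.ofReal (l ^ 3) = volume (closedBall z' (l / 2)) := by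
          rw [vol_ball _ (by positivity)]; congr 1; ring
      _ ≤ _ := measure_mono hz'
  calc ∫⁻ z in B, ENNReal.ofReal (l ^ 3) * f z
      ≤ ∫⁻ z in B, ∫⁻ w in B, (closedBall w l).indicator f z :=
        setLIntegral_mono' isClosed_closedBall.measurableSet h2
    _ ≤ _ := lintegral_mono' Measure.restrict_le_self le_rfl

/-- the triple integral over a product ball -/
theorem tri_eq (a r s₀ : ℝ) (y₀ : ℝ × ℝ) {b : Fin 3 → ℝ × ℝ → ℂ} (hb : ∀ i, TC (b i)) :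
    tri a r s₀ y₀ b = ∫⁻ z in closedBall (s₀, y₀) r, ∏ i, ‖U a z.1 (b i) z.2‖ₑ := by
  have hm : Measurable fun z : ℝ × (ℝ × ℝ) => ∏ i, ‖U a z.1 (b i) z.2‖ₑ :=
    Finset.measurable_fun_prod _ fun i _ => (U_cont a (hb i)).measurable.enorm
  have e1 : (volume : Measure (ℝ × (ℝ × ℝ))).restrict (closedBall (s₀, y₀) r) =
      ((volume : Measure ℝ).restrict (closedBall s₀ r)).prod ((volume : Measure (ℝ × ℝ)).restrict (closedBall y₀ r)) := by
    rw [← closedBall_prod_same, Measure.volume_eq_prod ℝ (ℝ × ℝ), Measure.prod_restrict]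
  unfold tri
  rw [e1, lintegral_prod _ hm.aemeasurable, Real.closedBall_eq_Icc]

/-- change of the order of variables and translation of the time -/
theorem outer_le (r s₀ : ℝ) (y₀ : ℝ × ℝ) (F : ℝ → ℝ × ℝ → ℝ≥0∞) :
    ∫⁻ w in closedBall (s₀, y₀) r, F (w.1 - s₀) w.2 ≤
      ∫⁻ t in Icc (0 - r) (0 + r), ∫⁻ x in closedBall y₀ r, F t x := by
  have e1 : (volume : Measure (ℝ × (ℝ × ℝ))).restrict (closedBall (s₀, y₀) r) =
      ((volume : Measure ℝ).restrict (closedBall s₀ r)).prod ((volume : Measure (ℝ × ℝ)).restrict (closedBall y₀ r)) := by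
    rw [← closedBall_prod_same, Measure.volume_eq_prod ℝ (ℝ × ℝ), Measure.prod_restrict]
  rw [e1]
  refine (lintegral_prod_le _).trans (le_of_eq ?_)
  rw [Real.closedBall_eq_Icc, ← lintegral_indicator measurableSet_Icc, ← lintegral_indicator measurableSet_Icc,
    ← lintegral_add_right_eq_self _ s₀]
  congr 1
  ext t
  simp only [indicator, mem_Icc, add_sub_cancel_right, zero_sub, zero_add]
  have : (s₀ - r ≤ t + s₀ ∧ t + s₀ ≤ s₀ + r) ↔ (-r ≤ t ∧ t ≤ r) := by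
    constructor
    · rintro ⟨h1, h2⟩; exact ⟨by linarith, by linarith⟩
    · rintro ⟨h1, h2⟩; exact ⟨by linarith, by linarith⟩
  simp only [this]

theorem En_zero (l : ℝ) (y : ℝ × ℝ) (a s : ℝ) {b : ℝ × ℝ → ℂ} (hb : ∀ ζ, b ζ = 0) : En l y (U a s b) = 0 := by
  have h1 : b = fun _ => 0 := funext hb
  have h2 : ∀ y, U a s b y = 0 := by
    intro y
    rw [h1]
    unfold U Fi
    simp
  unfold En
  simp only [h2]
  simp

/-- the velocity of a cap in a narrow sector -/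
theorem cap_vel (hDET : T_DET) {a : ℝ} (ha : a ∈ Icc (0 : ℝ) 1) {δ l σ : ℝ} (hδ : 0 < δ) (hδ' : δ ≤ 1 / 1000)
    (hl : 64 / δ ≤ l) (hσ : |σ| ≤ 1) {c : ℤ × ℤ} {ζ : ℝ × ℝ} (hQ : ζ ∈ QQ) (hn : |ζ.2 - σ * ζ.1| ≤ δ * ζ.1)
    (h1 : |l * ζ.1 - c.1| ≤ 1) (h2 : |l * ζ.2 - c.2| ≤ 1) :
    okc l c ∧ ‖-gr a ((c.2 : ℝ) / c.1) - -gr a σ‖ ≤ 20 * δ := by
  obtain ⟨hQ1, hQ2, hQ3⟩ := hQ
  have hl64 : 64000 ≤ l := by
    have : 64 / (1 / 1000) ≤ 64 / δ := by gcongr
    norm_num at this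
    linarith
  have hlδ : 64 ≤ l * δ := by
    rw [div_le_iff₀ hδ] at hl; exact hl
  obtain ⟨h1a, h1b⟩ := abs_le.1 h1
  obtain ⟨h2a, h2b⟩ := abs_le.1 h2
  obtain ⟨h3a, h3b⟩ := abs_le.1 hQ3
  have hlζ1 : l / 4 ≤ l * ζ.1 := by nlinarith
  have hlζ2 : l * ζ.1 ≤ 2 * l := by nlinarith
  have hlζ3 : l * ζ.2 ≤ l * ζ.1 := by nlinarith
  have hlζ4 : -(l * ζ.1) ≤ l * ζ.2 := by nlinarith
  have hc1 : l / 8 ≤ (c.1 : ℝ) := by linarith
  have hc1' : (c.1 : ℝ) ≤ 4 * l := by linarith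
  have hc2 : |(c.2 : ℝ)| ≤ 2 * (c.1 : ℝ) := by
    rw [abs_le]; constructor <;> linarith
  have hcpos : (0 : ℝ) < c.1 := by linarith
  refine ⟨⟨by linarith, hc1, hc1', hc2⟩, ?_⟩
  have hs1 : |(c.2 : ℝ) / c.1| ≤ 4 := by
    rw [abs_div, abs_of_pos hcpos, div_le_iff₀ hcpos]; linarith
  have hs2 : |σ| ≤ 4 := by linarith
  have hv := hDET.2.1 a ha ((c.2 : ℝ) / c.1) σ hs1 hs2
  have e1 : -gr a ((c.2 : ℝ) / c.1) - -gr a σ = -(gr a ((c.2 : ℝ) / c.1) - gr a σ) := by abel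
  rw [e1, norm_neg]
  refine hv.trans ?_
  have hζpos : 0 < ζ.1 := by linarith
  -- the slope
  have hsl : |(c.2 : ℝ) / c.1 - σ| ≤ 5 * δ := by
    have e2 : (c.2 : ℝ) / c.1 - σ = (((c.2 : ℝ) - l * ζ.2) - σ * ((c.1 : ℝ) - l * ζ.1) + l * (ζ.2 - σ * ζ.1)) / c.1 := by
      field_simp
      ring
    rw [e2, abs_div, abs_of_pos hcpos, div_le_iff₀ hcpos]
    have b1 : |(c.2 : ℝ) - l * ζ.2| ≤ 1 := by rw [abs_sub_comm]; exact h2
    have b2 : |σ * ((c.1 : ℝ) - l * ζ.1)| ≤ 1 := by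
      rw [abs_mul]
      have : |(c.1 : ℝ) - l * ζ.1| ≤ 1 := by rw [abs_sub_comm]; exact h1
      calc |σ| * |(c.1 : ℝ) - l * ζ.1| ≤ 1 * 1 := mul_le_mul hσ this (abs_nonneg _) zero_le_one
        _ = 1 := one_mul 1
    have b3 : |l * (ζ.2 - σ * ζ.1)| ≤ l * (δ * ζ.1) := by
      rw [abs_mul, abs_of_pos (by linarith : (0 : ℝ) < l)]
      gcongr
    have b4 : |((c.2 : ℝ) - l * ζ.2) - σ * ((c.1 : ℝ) - l * ζ.1) + l * (ζ.2 - σ * ζ.1)| ≤ 2 + l * (δ * ζ.1) := by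
      refine (abs_add_le _ _).trans ?_
      have := abs_sub ((c.2 : ℝ) - l * ζ.2) (σ * ((c.1 : ℝ) - l * ζ.1))
      linarith
    refine b4.trans ?_
    have b5 : l * (δ * ζ.1) ≤ δ * (c.1 + 1) := by
      have : l * ζ.1 ≤ c.1 + 1 := by linarith
      nlinarith
    have b6 : 8 ≤ δ * c.1 := by
      have : l * δ / 8 ≤ δ * c.1 := by nlinarith
      linarith
    nlinarith
  linarith


/-- the exponents -/
theorem expo {CM κ0 δ r l : ℝ} (hCM : 1 ≤ CM) (hδ : 0 < δ) (hδ' : δ ≤ 1 / 1000) (hl : 1 ≤ l)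
    (hlr : l ^ 2 = r) :
    κ0 * CM ^ (2 + Real.log (r / l) / Real.log (1 / (20 * δ))) ≤
      (max 1 κ0 * CM) ^ (3 + Real.log r / Real.log (1 / δ)) := by
  have hlpos : 0 < l := by linarith
  have h1 : r / l = l := by rw [← hlr]; field_simp
  have h2 : Real.log r = 2 * Real.log l := by rw [← hlr, Real.log_pow]; norm_num
  have hL : 0 ≤ Real.log l := Real.log_nonneg hl
  have hd1 : 0 < Real.log (1 / δ) := Real.log_pos (by rw [lt_div_iff₀ hδ]; linarith)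
  have hd2 : Real.log (1 / δ) ≤ 2 * Real.log (1 / (20 * δ)) := by
    have h3 : 2 * Real.log (1 / (20 * δ)) = Real.log ((1 / (20 * δ)) ^ 2) := by rw [Real.log_pow]; norm_num
    rw [h3]
    refine Real.log_le_log (by positivity) ?_
    rw [div_pow, one_pow, div_le_div_iff₀ hδ (by positivity)]
    nlinarith
  have hd3 : 0 < Real.log (1 / (20 * δ)) := by linarith
  have hE : Real.log (r / l) / Real.log (1 / (20 * δ)) ≤ Real.log r / Real.log (1 / δ) := by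
    rw [h1, h2, div_le_div_iff₀ hd3 hd1]
    nlinarith
  have hX : 0 ≤ Real.log r / Real.log (1 / δ) := by rw [h2]; positivity
  set X := Real.log r / Real.log (1 / δ) with hXdef
  have hm : 1 ≤ max 1 κ0 := le_max_left _ _
  have hm0 : 0 < max 1 κ0 := by linarith
  have hCM0 : 0 < CM := by linarith
  calc κ0 * CM ^ (2 + Real.log (r / l) / Real.log (1 / (20 * δ)))
      ≤ max 1 κ0 * CM ^ (3 + X) := by
        refine mul_le_mul (le_max_right _ _) ?_ (by positivity) hm0.le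
        exact Real.rpow_le_rpow_of_exponent_le hCM (by linarith)
    _ ≤ (max 1 κ0) ^ (3 + X) * CM ^ (3 + X) := by
        have : max 1 κ0 ≤ (max 1 κ0) ^ (3 + X) := by
          conv_lhs => rw [← Real.rpow_one (max 1 κ0)]
          exact Real.rpow_le_rpow_of_exponent_le hm (by linarith)
        exact mul_le_mul_of_nonneg_right this (by positivity)
    _ = _ := (Real.mul_rpow hm0.le hCM0.le).symm

theorem ofReal_four {T p x q : ℝ} (hT : 0 ≤ T) (hp : 0 ≤ p) (hx : 0 ≤ x) (P : ℝ≥0∞) :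
    ENNReal.ofReal T * ENNReal.ofReal p * (ENNReal.ofReal x * (ENNReal.ofReal q * P)) =
      ENNReal.ofReal (T * p * (x * q)) * P := by
  rw [ENNReal.ofReal_mul (mul_nonneg hT hp), ENNReal.ofReal_mul hT, ENNReal.ofReal_mul hx]
  ring

theorem prod_const_rpow (A : ℝ≥0∞) (x : Fin 3 → ℝ≥0∞) :
    ∏ i, (A * x i) ^ (1 / 2 : ℝ) = (A ^ (1 / 2 : ℝ)) ^ 3 * ∏ i, (x i) ^ (1 / 2 : ℝ) := by
  have h1 : ∀ i, (A * x i) ^ (1 / 2 : ℝ) = A ^ (1 / 2 : ℝ) * (x i) ^ (1 / 2 : ℝ) := fun i =>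
    ENNReal.mul_rpow_of_nonneg _ _ (by norm_num)
  simp only [h1, Finset.prod_mul_distrib, Finset.prod_const, Finset.card_univ, Fintype.card_fin]

theorem ind (hMK : T_MK) (hDET : T_DET) (hCORTH : T_CORTH) (hCAPT : T_CAPT) (hREVC : T_REVC)
    (hCUT : T_CUT) : T_IND := by
  intro κ hκ
  obtain ⟨D, hD, hDet⟩ := hDET.1 κ hκ
  obtain ⟨CM, hCM, hMK⟩ := hMK D hD
  obtain ⟨C1, hC1⟩ := hCORTH
  obtain ⟨C2, hC2⟩ := hCAPT
  obtain ⟨C3, hC3⟩ := hREVC
  set κ0 : ℝ := ((((C1 * C2 : ℝ≥0) : ℝ) ^ (1 / 2 : ℝ)) ^ 3) * (((C3 : ℝ) ^ (1 / 2 : ℝ)) ^ 3) with hκ0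
  have hκ0' : 0 ≤ κ0 := by positivity
  refine ⟨max 1 κ0 * CM, ?_, ?_⟩
  · have := le_max_left 1 κ0
    nlinarith
  intro δ hδ hδ' a ha s r T hs hsep hr hT hyp s₀ y₀ b hb
  set l : ℝ := Real.sqrt r with hldef
  have hr0 : 0 ≤ r := (sq_nonneg _).trans hr
  have hlr : l ^ 2 = r := Real.sq_sqrt hr0
  have hl : 64 / δ ≤ l := Real.le_sqrt_of_sq_le hr
  have hl64 : 64000 ≤ l := by
    have : 64 / (1 / 1000) ≤ 64 / δ := by gcongr
    norm_num at this
    linarith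
  have hlpos : 0 < l := by linarith
  have hler : l ≤ r := by rw [← hlr]; nlinarith
  have hbTC : ∀ i, TC (b i) := fun i => (hb i).1
  have hbQ : ∀ i, TS QQ (b i) := fun i => ⟨(hb i).1, fun ζ h => ((hb i).2 ζ h).1⟩
  classical
  let I : Fin 3 → Finset (ℤ × ℤ) := fun i => (capsQ l).filter fun c => ∃ ζ, cp l c ζ ≠ 0 ∧ b i ζ ≠ 0
  let G : Fin 3 → ℤ × ℤ → ℝ × ℝ → ℂ := fun i c => U a s₀ (fun ζ => cp l c ζ * b i ζ)
  let v : Fin 3 → ℤ × ℤ → ℝ × ℝ := fun _ c => -gr a ((c.2 : ℝ) / c.1)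
  let g : Fin 3 → ℤ × ℤ → ℝ × ℝ → ℝ≥0∞ := fun i c y => ‖G i c y‖ₑ ^ 2
  have hvel : ∀ i, ∀ c ∈ I i, okc l c ∧ ‖v i c - -gr a (s i)‖ ≤ 20 * δ := by
    intro i c hc
    obtain ⟨-, ζ, hζ1, hζ2⟩ := Finset.mem_filter.1 hc
    obtain ⟨hQ, hn⟩ := (hb i).2 ζ hζ2
    obtain ⟨h1, h2⟩ := (hCUT.2.2.1 l c hlpos).2.2.2.2.1 ζ hζ1
    exact cap_vel hDET ha hδ hδ' hl (hs i) hQ hn h1 h2
  have hcut : ∀ c, TC (cp l c) := fun c => (hCUT.2.2.1 l c hlpos).1
  have hGTC : ∀ i c, TC (fun ζ => cp l c ζ * b i ζ) := fun i c => TC.mul (hcut c).1 (hbTC i)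
  have hGm : ∀ i c, Measurable (g i c) := by
    intro i c
    have h1 : Measurable (G i c) := by
      have := (U_cont a (hGTC i c)).measurable.comp (measurable_prodMk_left (x := s₀))
      exact this
    exact h1.enorm.pow_const 2
  -- the tube bound for the energy
  have hEn : ∀ (i : Fin 3) (w : ℝ × (ℝ × ℝ)), w ∈ closedBall (s₀, y₀) r →
      En l w.2 (U a w.1 (b i)) ≤ ((C1 * C2 : ℝ≥0) : ℝ≥0∞) * tub l (I i) (v i) (g i) w.2 (w.1 - s₀) := by
    intro i w hw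
    have hh : |w.1 - s₀| ≤ l ^ 2 := by
      rw [hlr]
      have h1 : dist w.1 s₀ ≤ dist w (s₀, y₀) := by rw [Prod.dist_eq]; exact le_max_left _ _
      rw [Real.dist_eq] at h1
      exact h1.trans (mem_closedBall.1 hw)
    refine (hC1 a ha l w.1 w.2 (b i) (by linarith) (hbQ i)).trans ?_
    rw [ENNReal.coe_mul, mul_assoc]
    gcongr
    unfold tub
    rw [Finset.mul_sum]
    rw [← Finset.sum_filter_add_sum_filter_not (capsQ l) (fun c => ∃ ζ, cp l c ζ ≠ 0 ∧ b i ζ ≠ 0)]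
    have hz : ∑ c ∈ (capsQ l).filter (fun c => ¬ ∃ ζ, cp l c ζ ≠ 0 ∧ b i ζ ≠ 0),
        En l w.2 (U a w.1 (fun ζ => cp l c ζ * b i ζ)) = 0 := by
      refine Finset.sum_eq_zero fun c hc => En_zero _ _ _ _ fun ζ => ?_
      have h1 := (Finset.mem_filter.1 hc).2
      push Not at h1
      by_cases h2 : cp l c ζ = 0
      · rw [h2, zero_mul]
      · rw [h1 ζ h2, mul_zero]
    rw [hz, add_zero]
    refine Finset.sum_le_sum fun c hc => ?_
    have h3 := hC2 a ha l (w.1 - s₀) s₀ c w.2 (b i) (hvel i c hc).1 hh (hbQ i)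
    rw [add_sub_cancel] at h3
    refine h3.trans ?_
    gcongr
    unfold En
    refine lintegral_mono fun y => ?_
    have h4 : om l (y - (w.2 + (w.1 - s₀) • gr a ((c.2 : ℝ) / c.1))) = om l (w.2 - y - (w.1 - s₀) • v i c) := by
      rw [← om_neg]
      congr 1
      simp only [v, smul_neg]
      abel
    rw [h4]
  -- the inner bound
  set A : ℝ≥0∞ := ((C1 * C2 : ℝ≥0) : ℝ≥0∞) with hA
  have hin : ∀ w ∈ closedBall (s₀, y₀) r, tri a l w.1 w.2 b ≤
      (ENNReal.ofReal T * (A ^ (1 / 2 : ℝ)) ^ 3) * ∏ i, (tub l (I i) (v i) (g i) w.2 (w.1 - s₀)) ^ (1 / 2 : ℝ) := by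
    intro w hw
    refine (hyp w.1 w.2 b hb).trans ?_
    rw [mul_assoc, ← prod_const_rpow]
    gcongr with i _
    exact hEn i w hw
  -- integrate
  have hm : Measurable fun z : ℝ × (ℝ × ℝ) => ∏ i, ‖U a z.1 (b i) z.2‖ₑ :=
    Finset.measurable_fun_prod _ fun i _ => (U_cont a (hbTC i)).measurable.enorm
  have hfinA : ENNReal.ofReal T * (A ^ (1 / 2 : ℝ)) ^ 3 ≠ ⊤ := by
    refine ENNReal.mul_ne_top ENNReal.ofReal_ne_top (ENNReal.pow_ne_top ?_)
    exact ENNReal.rpow_ne_top_of_nonneg (by norm_num) ENNReal.coe_ne_top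
  have hmk := hMK (20 * δ) I (fun i => -gr a (s i)) v g l r y₀ 0 (by positivity) (by linarith)
    (fun i => by
      rw [norm_neg]
      have := (hDET.2.2 a ha (s i) (by linarith [hs i])).2 (by linarith [hs i])
      linarith)
    (hDet a ha s hs hsep) (fun i c hc => (hvel i c hc).2) hGm (by linarith) hler
  have hfin : ∀ i, tub r (I i) (v i) (g i) y₀ 0 ≤ (C3 : ℝ≥0∞) * En r y₀ (U a s₀ (b i)) := by
    intro i
    refine le_trans ?_ (hC3 a ha l r s₀ y₀ (b i) (by linarith) hlr.le (hbQ i))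
    unfold tub
    refine (Finset.sum_le_sum_of_subset (Finset.filter_subset _ _)).trans (Finset.sum_le_sum fun c _ => ?_)
    unfold En
    refine lintegral_mono fun y => ?_
    have h4 : om r (y₀ - y - (0 : ℝ) • v i c) = om r (y - y₀) := by
      rw [← om_neg]
      congr 1
      rw [zero_smul, sub_zero]
      abel
    rw [h4]
  have key : ENNReal.ofReal (l ^ 3) * tri a r s₀ y₀ b ≤
      (ENNReal.ofReal T * (A ^ (1 / 2 : ℝ)) ^ 3) *
        (ENNReal.ofReal (CM ^ (2 + Real.log (r / l) / Real.log (1 / (20 * δ))) * l ^ 3) *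
          (((C3 : ℝ≥0∞) ^ (1 / 2 : ℝ)) ^ 3 * ∏ i, (En r y₀ (U a s₀ (b i))) ^ (1 / 2 : ℝ))) := by
    rw [tri_eq a r s₀ y₀ hbTC]
    refine (avg hm (s₀, y₀) hlpos hler).trans ?_
    calc ∫⁻ w in closedBall (s₀, y₀) r, ∫⁻ z in closedBall w l, ∏ i, ‖U a z.1 (b i) z.2‖ₑ
        = ∫⁻ w in closedBall (s₀, y₀) r, tri a l w.1 w.2 b := by
          congr 1; ext w
          rw [tri_eq a l w.1 w.2 hbTC]
      _ ≤ ∫⁻ w in closedBall (s₀, y₀) r, (ENNReal.ofReal T * (A ^ (1 / 2 : ℝ)) ^ 3) *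
            ∏ i, (tub l (I i) (v i) (g i) w.2 (w.1 - s₀)) ^ (1 / 2 : ℝ) :=
          setLIntegral_mono' isClosed_closedBall.measurableSet hin
      _ = (ENNReal.ofReal T * (A ^ (1 / 2 : ℝ)) ^ 3) * ∫⁻ w in closedBall (s₀, y₀) r,
            ∏ i, (tub l (I i) (v i) (g i) w.2 (w.1 - s₀)) ^ (1 / 2 : ℝ) := lintegral_const_mul' _ _ hfinA
      _ ≤ (ENNReal.ofReal T * (A ^ (1 / 2 : ℝ)) ^ 3) * ∫⁻ t in Icc (0 - r) (0 + r), ∫⁻ x in closedBall y₀ r,
            ∏ i, (tub l (I i) (v i) (g i) x t) ^ (1 / 2 : ℝ) := by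
          gcongr
          exact outer_le r s₀ y₀ fun t x => ∏ i, (tub l (I i) (v i) (g i) x t) ^ (1 / 2 : ℝ)
      _ ≤ _ := by
          gcongr
          refine hmk.trans ?_
          rw [← prod_const_rpow]
          gcongr with i _
          exact hfin i
  -- cancel
  have hl3 : ENNReal.ofReal (l ^ 3) ≠ 0 := by
    rw [Ne, ENNReal.ofReal_eq_zero, not_le]; positivity
  rw [← ENNReal.mul_le_mul_iff_right hl3 ENNReal.ofReal_ne_top]
  refine key.trans ?_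
  have hCMpos : 0 < CM := by linarith
  set P : ℝ≥0∞ := ∏ i, (En r y₀ (U a s₀ (b i))) ^ (1 / 2 : ℝ) with hP
  set X1 : ℝ := CM ^ (2 + Real.log (r / l) / Real.log (1 / (20 * δ))) with hX1
  set X2 : ℝ := (max 1 κ0 * CM) ^ (3 + Real.log r / Real.log (1 / δ)) with hX2
  have hX1' : 0 ≤ X1 := by positivity
  have hexp : κ0 * X1 ≤ X2 := expo hCM hδ hδ' (by linarith) hlr
  have hAr : (A ^ (1 / 2 : ℝ)) ^ 3 = ENNReal.ofReal ((((C1 * C2 : ℝ≥0) : ℝ) ^ (1 / 2 : ℝ)) ^ 3) := by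
    rw [ENNReal.ofReal_pow (by positivity), ← ENNReal.ofReal_rpow_of_nonneg (by positivity) (by norm_num),
      ENNReal.ofReal_coe_nnreal]
  have hBr : ((C3 : ℝ≥0∞) ^ (1 / 2 : ℝ)) ^ 3 = ENNReal.ofReal (((C3 : ℝ) ^ (1 / 2 : ℝ)) ^ 3) := by
    rw [ENNReal.ofReal_pow (by positivity), ← ENNReal.ofReal_rpow_of_nonneg (by positivity) (by norm_num),
      ENNReal.ofReal_coe_nnreal]
  rw [hAr, hBr]
  calc ENNReal.ofReal T * ENNReal.ofReal ((((C1 * C2 : ℝ≥0) : ℝ) ^ (1 / 2 : ℝ)) ^ 3) *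
        (ENNReal.ofReal (X1 * l ^ 3) * (ENNReal.ofReal (((C3 : ℝ) ^ (1 / 2 : ℝ)) ^ 3) * P))
      = ENNReal.ofReal (T * ((((C1 * C2 : ℝ≥0) : ℝ) ^ (1 / 2 : ℝ)) ^ 3) * ((X1 * l ^ 3) *
          (((C3 : ℝ) ^ (1 / 2 : ℝ)) ^ 3))) * P := by
        exact ofReal_four hT (by positivity) (by positivity) P
    _ ≤ ENNReal.ofReal (l ^ 3 * (X2 * T)) * P := by
        refine mul_le_mul' (ENNReal.ofReal_le_ofReal ?_) le_rfl
        have e1 : T * ((((C1 * C2 : ℝ≥0) : ℝ) ^ (1 / 2 : ℝ)) ^ 3) * ((X1 * l ^ 3) *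
          (((C3 : ℝ) ^ (1 / 2 : ℝ)) ^ 3)) = l ^ 3 * ((κ0 * X1) * T) := by rw [hκ0]; ring
        rw [e1]
        gcongr
    _ = _ := by rw [ENNReal.ofReal_mul (by positivity)]; ring

end Pool.Agent.H89.LS
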