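import Pool.Agent.H83.LS.Targets4
import Pool.Agent.H83.LS.Basic

/-!
# Tools for one dyadic block (MP_ee74d2_an, module BLK)
-/

set_option autoImplicit false

namespace Pool.Agent.H89.LS

open MeasureTheory Set Metric FourierTransform
open scoped ENNReal NNReal SchwartzMap
open Pool.Agent.H83.LS

/-! ## cutoffs -/

theorem eta0_one {s : ℝ} (h : s ≤ 1) : eta0 s = 1 := by
  unfold eta0; exact Real.smoothTransition.one_of_one_le (by linarith)

theorem eta0_zero {s : ℝ} (h : 2 ≤ s) : eta0 s = 0 := by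
  unfold eta0; exact Real.smoothTransition.zero_of_nonpos (by linarith)

theorem eta0_nonneg (s : ℝ) : 0 ≤ eta0 s := Real.smoothTransition.nonneg _

theorem eta0_le_one (s : ℝ) : eta0 s ≤ 1 := Real.smoothTransition.le_one _

theorem eta0_contDiff : ContDiff ℝ (⊤ : ℕ∞) eta0 := by
  unfold eta0
  exact Real.smoothTransition.contDiff.comp (contDiff_const.sub contDiff_id)

theorem chi_abs_le (s : ℝ) : |chi s| ≤ 1 := by
  unfold chi
  rw [abs_le]
  constructor <;> linarith [eta0_nonneg s, eta0_le_one s, eta0_nonneg (2 * s), eta0_le_one (2 * s)]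

theorem chis_abs_le (s : ℝ) : |chis s| ≤ 1 := by
  unfold chis
  rw [abs_le]
  constructor <;> linarith [eta0_nonneg (s / 2), eta0_le_one (s / 2), eta0_nonneg (4 * s),
    eta0_le_one (4 * s)]

theorem chi_supp {s : ℝ} (h : chi s ≠ 0) : 1 / 2 ≤ s ∧ s ≤ 2 := by
  unfold chi at h
  constructor
  · by_contra hc
    push Not at hc
    exact h (by rw [eta0_one (by linarith), eta0_one (by linarith), sub_self])
  · by_contra hc
    push Not at hc
    exact h (by rw [eta0_zero (by linarith), eta0_zero (by linarith), sub_self])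

theorem chis_supp {s : ℝ} (h : chis s ≠ 0) : 1 / 4 ≤ s ∧ s ≤ 4 := by
  unfold chis at h
  constructor
  · by_contra hc
    push Not at hc
    exact h (by rw [eta0_one (by linarith), eta0_one (by linarith), sub_self])
  · by_contra hc
    push Not at hc
    exact h (by rw [eta0_zero (by linarith), eta0_zero (by linarith), sub_self])

theorem chis_one {s : ℝ} (h1 : 1 / 2 ≤ s) (h2 : s ≤ 2) : chis s = 1 := by
  unfold chis
  rw [eta0_one (by linarith), eta0_zero (by linarith), sub_zero]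

theorem chis_mul_chi (s : ℝ) : chis s * chi s = chi s := by
  by_cases h : chi s = 0
  · rw [h, mul_zero]
  · obtain ⟨h1, h2⟩ := chi_supp h
    rw [chis_one h1 h2, one_mul]

theorem chi_contDiff : ContDiff ℝ (⊤ : ℕ∞) chi := by
  unfold chi
  exact eta0_contDiff.sub (eta0_contDiff.comp (contDiff_const.mul contDiff_id))

theorem chis_contDiff : ContDiff ℝ (⊤ : ℕ∞) chis := by
  unfold chis
  exact (eta0_contDiff.comp (contDiff_id.div_const 2)).sub
    (eta0_contDiff.comp (contDiff_const.mul contDiff_id))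

theorem CB_chis : CB 0 1 (fun s => ((chis s : ℝ) : ℂ)) := by
  refine ⟨Complex.ofRealCLM.contDiff.comp chis_contDiff, fun s hs => ?_, fun k hk s => ?_⟩
  · have h : chis s ≠ 0 := fun h => hs (by simp [h])
    obtain ⟨h1, h2⟩ := chis_supp h
    constructor <;> linarith
  · have hk0 : k = 0 := by omega
    subst hk0
    rw [iteratedDeriv_zero, Complex.norm_real, Real.norm_eq_abs]
    exact chis_abs_le s

theorem AN_chis {n : ℕ} : AN (fun y : EE n => ((chis ‖y‖ : ℝ) : ℂ)) := by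
  constructor
  · rw [contDiff_iff_contDiffAt]
    intro y
    by_cases hy : y = 0
    · subst hy
      have h : (fun y : EE n => ((chis ‖y‖ : ℝ) : ℂ)) =ᶠ[nhds 0] fun _ => 0 := by
        filter_upwards [Metric.ball_mem_nhds (0 : EE n) (show (0 : ℝ) < 1 / 4 by norm_num)] with z hz
        rw [mem_ball_zero_iff] at hz
        by_contra hc
        have h : chis ‖z‖ ≠ 0 := fun h => hc (by rw [h]; simp)
        linarith [(chis_supp h).1]
      exact contDiffAt_const.congr_of_eventuallyEq h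
    · exact (Complex.ofRealCLM.contDiff.comp chis_contDiff).contDiffAt.comp y
        (contDiffAt_norm ℝ hy)
  · intro y hy
    have h : chis ‖y‖ ≠ 0 := fun h => hy (by simp [h])
    obtain ⟨h1, h2⟩ := chis_supp h
    constructor <;> linarith

/-- the dyadic partition in `s = hor ξ` -/
theorem telescope (s : ℝ) (M : ℕ) (hs : s ≤ 2 ^ M) :
    eta0 s + ∑ m ∈ Finset.range M, chi (s / 2 ^ (m + 1)) = 1 := by
  have key : ∀ K : ℕ, eta0 s + ∑ m ∈ Finset.range K, chi (s / 2 ^ (m + 1)) = eta0 (s / 2 ^ K) := by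
    intro K
    induction K with
    | zero => simp
    | succ K ih =>
      rw [Finset.sum_range_succ, ← add_assoc, ih]
      unfold chi
      have : 2 * (s / 2 ^ (K + 1)) = s / 2 ^ K := by
        rw [pow_succ]; field_simp
      rw [this]; ring
  rw [key M]
  apply eta0_one
  rw [div_le_one (by positivity)]
  exact hs

/-! ## coordinates -/

theorem norm_sq_eq {n : ℕ} (ξ : EE (n + 1)) : ‖ξ‖ ^ 2 = ‖pr ξ‖ ^ 2 + (ξ (Fin.last n)) ^ 2 := by
  rw [EuclideanSpace.norm_sq_eq, EuclideanSpace.norm_sq_eq, Fin.sum_univ_castSucc]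
  simp only [Real.norm_eq_abs, sq_abs]
  rfl

theorem hor_eq {n : ℕ} (ξ : EE (n + 1)) : hor ξ = ‖pr ξ‖ := by
  unfold hor
  rw [norm_sq_eq, add_sub_cancel_right, Real.sqrt_sq (norm_nonneg _)]

theorem hor_nonneg {n : ℕ} (ξ : EE (n + 1)) : 0 ≤ hor ξ := Real.sqrt_nonneg _

theorem hor_le {n : ℕ} (ξ : EE (n + 1)) : hor ξ ≤ ‖ξ‖ := by
  rw [hor_eq]
  apply le_of_sq_le_sq _ (norm_nonneg _)
  rw [norm_sq_eq ξ]
  nlinarith [sq_nonneg (ξ (Fin.last n))]

theorem continuous_hor {n : ℕ} : Continuous (fun ξ : EE (n + 1) => hor ξ) := by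
  unfold hor
  fun_prop

theorem continuous_pr {n : ℕ} : Continuous (fun ξ : EE (n + 1) => pr ξ) := by
  unfold pr
  exact (PiLp.continuous_toLp 2 _).comp (by fun_prop)

theorem continuous_jo {n : ℕ} : Continuous (fun q : EE n × ℝ => jo q.1 q.2) := by
  unfold jo
  refine (PiLp.continuous_toLp 2 _).comp ?_
  refine continuous_pi fun i => ?_
  refine Fin.lastCases ?_ (fun j => ?_) i
  · simp only [Fin.snoc_last]; fun_prop
  · simp only [Fin.snoc_castSucc]; fun_prop

theorem norm_pr_div {n : ℕ} {ξ : EE (n + 1)} (h : hor ξ ≠ 0) : ‖(1 / hor ξ) • pr ξ‖ = 1 := by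
  rw [norm_smul, ← hor_eq, Real.norm_eq_abs, abs_of_nonneg (by have := hor_nonneg ξ; positivity),
    one_div, inv_mul_cancel₀ h]

/-! ## Fourier transforms -/

theorem MK_eq {d : ℕ} (b : EE d → ℂ) (x : EE d) : MK b x = 𝓕⁻ b x := by
  unfold MK
  rw [Real.fourierInv_eq']
  congr 1
  ext ξ
  unfold e
  rw [smul_eq_mul, real_inner_comm]

theorem integrable_e_mul' {d : ℕ} {b : EE d → ℂ} (hb : Integrable b) (x : EE d) :
    Integrable (fun ξ : EE d => e (inner ℝ x ξ) * b ξ) := by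
  apply hb.bdd_mul (c := 1)
  · exact (continuous_e.comp (by fun_prop)).aestronglyMeasurable
  · exact Filter.Eventually.of_forall (fun ζ => (norm_e _).le)

/-- multiplication of symbols and convolution of kernels -/
theorem MK_mul {d : ℕ} {b₁ b₂ : EE d → ℂ} (hc : Continuous b₁) (h1 : Integrable b₁)
    (hk : Integrable (MK b₁)) (h2 : Integrable b₂) (x : EE d) :
    MK (fun ξ => b₁ ξ * b₂ ξ) x = ∫ y, MK b₁ (x - y) * MK b₂ y := by
  have hinv : ∀ ξ, ∫ z, e (-(inner ℝ z ξ)) * MK b₁ z = b₁ ξ := by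
    intro ξ
    have e1 : 𝓕 b₁ = fun v => MK b₁ (-v) := by
      funext v
      rw [MK_eq, Real.fourierInv_eq_fourier_neg, neg_neg]
    have hF : Integrable (𝓕 b₁) := by
      rw [e1]; exact hk.comp_neg
    have h := congrFun (hc.fourier_fourierInv_eq h1 hF) ξ
    rw [← h, Real.fourier_eq']
    congr 1
    ext z
    rw [← MK_eq]
    unfold e
    rw [smul_eq_mul]
    congr 2
    push_cast
    ring_nf
  have hprod : Integrable (fun q : EE d × EE d => MK b₁ (x - q.1) * (e (inner ℝ q.1 q.2) * b₂ q.2))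
      (volume.prod volume) := by
    have h3 : Integrable (fun q : EE d × EE d => MK b₁ (x - q.1) * b₂ q.2) (volume.prod volume) :=
      (hk.comp_sub_left x).mul_prod h2
    have h4 : (fun q : EE d × EE d => MK b₁ (x - q.1) * (e (inner ℝ q.1 q.2) * b₂ q.2)) =
        fun q => e (inner ℝ q.1 q.2) * (MK b₁ (x - q.1) * b₂ q.2) := by
      funext q; ring
    rw [h4]
    apply h3.bdd_mul (c := 1)
    · exact (continuous_e.comp (by fun_prop)).aestronglyMeasurable
    · exact Filter.Eventually.of_forall (fun ζ => (norm_e _).le)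
  calc MK (fun ξ => b₁ ξ * b₂ ξ) x = ∫ ξ, (∫ y, MK b₁ (x - y) * e (inner ℝ y ξ)) * b₂ ξ := by
        unfold MK
        congr 1
        ext ξ
        rw [← mul_assoc]
        congr 1
        have e2 : ∫ y, MK b₁ (x - y) * e (inner ℝ y ξ) = ∫ z, MK b₁ z * e (inner ℝ (x - z) ξ) := by
          have := integral_sub_left_eq_self (fun z => MK b₁ z * e (inner ℝ (x - z) ξ)) volume x
          rw [← this]
          congr 1
          ext y
          rw [sub_sub_cancel]
        unfold MK at e2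
        rw [e2]
        have e3 : ∀ z, (∫ ξ, e (inner ℝ z ξ) * b₁ ξ) * e (inner ℝ (x - z) ξ) =
            e (inner ℝ x ξ) * (e (-(inner ℝ z ξ)) * MK b₁ z) := by
          intro z
          rw [inner_sub_left, sub_eq_add_neg, e_add]
          unfold MK
          ring
        simp_rw [e3]
        rw [integral_const_mul, hinv]
    _ = ∫ ξ, ∫ y, MK b₁ (x - y) * (e (inner ℝ y ξ) * b₂ ξ) := by
        congr 1
        ext ξ
        rw [← integral_mul_const]
        congr 1
        ext y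
        ring
    _ = ∫ y, ∫ ξ, MK b₁ (x - y) * (e (inner ℝ y ξ) * b₂ ξ) :=
        (integral_integral_swap hprod).symm
    _ = _ := by
        congr 1
        ext y
        rw [integral_const_mul]
        rfl

/-! ## the coefficient `ca` -/

theorem measurable_sphere {n : ℕ} :
    Measurable (fun q : (ℝ × ℝ) × EE n => jo ((q.1.1 / ‖q.2‖) • q.2) q.1.2) := by
  have h1 : Measurable (fun q : (ℝ × ℝ) × EE n => ((q.1.1 / ‖q.2‖) • q.2, q.1.2)) := by
    refine Measurable.prodMk ?_ (by fun_prop)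
    exact ((measurable_fst.comp measurable_fst).div (measurable_snd.norm)).smul measurable_snd
  exact continuous_jo.measurable.comp h1

/-- joint measurability of `ca` -/
theorem measurable_ca {n : ℕ} {G : EE (n + 1) → ℂ} (hG : Measurable G) :
    Measurable (fun q : EE n × (ℝ × ℝ) => ca G q.1 q.2.1 q.2.2) := by
  have h1 : Measurable (fun z : (EE n × (ℝ × ℝ)) × EE n => e (-(inner ℝ z.1.1 z.2)) *
      ((chis ‖z.2‖ : ℝ) : ℂ) * G (jo ((z.1.2.1 / ‖z.2‖) • z.2) z.1.2.2)) := by
    refine Measurable.mul (Measurable.mul ?_ ?_) ?_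
    · exact measurable_e.comp (by fun_prop)
    · exact Complex.measurable_ofReal.comp (chis_contDiff.continuous.measurable.comp
        measurable_snd.norm)
    · refine hG.comp ?_
      exact measurable_sphere.comp (g := fun q : (ℝ × ℝ) × EE n => jo ((q.1.1 / ‖q.2‖) • q.2) q.1.2)
        (f := fun z : (EE n × (ℝ × ℝ)) × EE n => (z.1.2, z.2)) (by fun_prop)
  have h2 : StronglyMeasurable (fun q : EE n × (ℝ × ℝ) => ∫ y : EE n, e (-(inner ℝ q.1 y)) *
      ((chis ‖y‖ : ℝ) : ℂ) * G (jo ((q.2.1 / ‖y‖) • y) q.2.2)) :=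
    StronglyMeasurable.integral_prod_right h1.stronglyMeasurable
  exact h2.measurable

theorem AN_integrable {n : ℕ} {W : EE n → ℂ} (hW : AN W) : Integrable W := by
  apply hW.1.continuous.integrable_of_hasCompactSupport
  apply HasCompactSupport.intro (isCompact_closedBall (0 : EE n) 8)
  intro x hx
  by_contra hc
  exact hx (by rw [mem_closedBall_zero_iff]; exact (hW.2 x hc).2)

theorem ann_bound {n : ℕ} {c : EE n → ℂ} (hc : AN c) (H : EE n → ℂ) (u : EE n → ℂ) (D : ℝ)
    (hu : ∀ y, ‖u y‖ = 1) (hH : ∀ y, ‖H y‖ ≤ D) :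
    ‖∫ y, u y * c y * H y‖ ≤ (∫ y, ‖c y‖) * D := by
  rw [← integral_mul_const]
  refine norm_integral_le_of_norm_le ((AN_integrable hc).norm.mul_const D) ?_
  refine Filter.Eventually.of_forall fun y => ?_
  rw [norm_mul, norm_mul, hu, one_mul]
  exact mul_le_mul_of_nonneg_left (hH y) (norm_nonneg _)

/-- decay of `ca`, uniform in `s, η` -/
theorem ca_decay (hANG : T_ANG) (hROT : T_ROT) {n : ℕ} (hn : 1 ≤ n) (G : 𝓢(EE (n + 1), ℂ)) :
    ∃ D : ℝ, 0 ≤ D ∧ ∀ (a : EE n) (s η : ℝ), ‖ca G a s η‖ ≤ D * (1 + ‖a‖) ^ (-((n : ℝ) + 1)) := by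
  obtain ⟨S, c, hS, hc, hid⟩ := hANG n (n + 1) hn
  -- bounds for the Schwartz functions
  have hbd : ∀ w : List (Fin n × Fin n), ∃ D : ℝ, ∀ x, ‖rotW w (G : EE (n + 1) → ℂ) x‖ ≤ D := by
    intro w
    obtain ⟨g, hg⟩ := (hROT n G w).1
    obtain ⟨D, hD⟩ := g.decay' 0 0
    refine ⟨D, fun x => ?_⟩
    have := hD x
    simp only [pow_zero, one_mul, norm_iteratedFDeriv_zero] at this
    rw [← hg x]
    exact this
  choose D hD using hbd
  have hD0 : ∀ w, 0 ≤ D w := fun w => le_trans (norm_nonneg _) (hD w 0)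
  -- the bound with powers of the coordinates
  set E₁ : Fin n → ℝ := fun i => ∑ w ∈ S, (∫ y, ‖c i w y‖) * D w with hE₁
  have hE0 : ∀ i, 0 ≤ E₁ i := fun i => Finset.sum_nonneg fun w _ =>
    mul_nonneg (integral_nonneg fun _ => norm_nonneg _) (hD0 w)
  have h1 : ∀ (a : EE n) (s η : ℝ) (i : Fin n), |a i| ^ (n + 1) * ‖ca G a s η‖ ≤ E₁ i := by
    intro a s η i
    have h := hid G a s η i
    have h2 : ‖(2 * Real.pi * Complex.I * (a i : ℂ)) ^ (n + 1) * ca G a s η‖ ≤ E₁ i := by
      rw [h]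
      refine (norm_sum_le _ _).trans (Finset.sum_le_sum fun w _ => ?_)
      exact ann_bound (hc i w) (fun y => rotW w G (jo ((s / ‖y‖) • y) η))
        (fun y => e (-(inner ℝ a y))) (D w) (fun y => norm_e _) (fun y => hD w _)
    rw [norm_mul, norm_pow, norm_mul, norm_mul, norm_mul] at h2
    simp only [Complex.norm_ofNat, Complex.norm_real, Complex.norm_I, mul_one,
      Real.norm_eq_abs] at h2
    refine le_trans (mul_le_mul_of_nonneg_right ?_ (norm_nonneg _)) h2
    apply pow_le_pow_left₀ (abs_nonneg _)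
    have h3 : 1 ≤ 2 * |Real.pi| := by
      rw [abs_of_pos Real.pi_pos]; linarith [Real.pi_gt_three]
    nlinarith [abs_nonneg (a i)]
  have h0 : ∀ (a : EE n) (s η : ℝ), ‖ca G a s η‖ ≤ (∫ y : EE n, ‖((chis ‖y‖ : ℝ) : ℂ)‖) * D [] := by
    intro a s η
    exact ann_bound AN_chis (fun y => G (jo ((s / ‖y‖) • y) η))
        (fun y => e (-(inner ℝ a y))) (D []) (fun y => norm_e _) (fun y => hD [] _)
  set E₀ : ℝ := (∫ y : EE n, ‖((chis ‖y‖ : ℝ) : ℂ)‖) * D [] with hE₀
  have hE₀0 : 0 ≤ E₀ := mul_nonneg (integral_nonneg fun _ => norm_nonneg _) (hD0 _)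
  have hdec : ∀ (a : EE n) (s η : ℝ),
      (1 + ‖a‖) ^ (n + 1) * ‖ca G a s η‖ ≤ 2 ^ (n + 1) * (E₀ + (n : ℝ) ^ (n + 1) * ∑ i, E₁ i) := by
    intro a s η
    have hsum : ‖a‖ ≤ ∑ i, |a i| := by
      have h4 : ‖a‖ ^ 2 ≤ (∑ i, |a i|) ^ 2 := by
        rw [EuclideanSpace.norm_sq_eq]
        have := Finset.sum_sq_le_sq_sum_of_nonneg (s := Finset.univ) (f := fun i => |a i|)
          (fun i _ => abs_nonneg _)
        simpa using this
      exact le_of_sq_le_sq h4 (Finset.sum_nonneg fun i _ => abs_nonneg _)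
    obtain ⟨i, -, hi⟩ : ∃ i ∈ (Finset.univ : Finset (Fin n)), ∀ j ∈ (Finset.univ : Finset (Fin n)), |a j| ≤ |a i| :=
      Finset.exists_max_image _ _ ⟨⟨0, by omega⟩, Finset.mem_univ _⟩
    have h5 : ‖a‖ ≤ n * |a i| := by
      refine hsum.trans ?_
      have := Finset.sum_le_card_nsmul Finset.univ (fun j => |a j|) (|a i|) hi
      simpa using this
    have h6 : (1 + ‖a‖) ^ (n + 1) ≤ 2 ^ (n + 1) * (1 + (n : ℝ) ^ (n + 1) * |a i| ^ (n + 1)) := by
      have h7 : 1 + ‖a‖ ≤ 2 * max 1 (n * |a i|) := by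
        have := le_max_left 1 ((n : ℝ) * |a i|)
        have := le_max_right 1 ((n : ℝ) * |a i|)
        linarith
      calc (1 + ‖a‖) ^ (n + 1) ≤ (2 * max 1 (n * |a i|)) ^ (n + 1) :=
            pow_le_pow_left₀ (by positivity) h7 _
        _ = 2 ^ (n + 1) * (max 1 (n * |a i|)) ^ (n + 1) := by rw [mul_pow]
        _ ≤ _ := by
            apply mul_le_mul_of_nonneg_left _ (by positivity)
            rcases le_total 1 ((n : ℝ) * |a i|) with h | h
            · rw [max_eq_right h, mul_pow]; linarith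
            · rw [max_eq_left h, one_pow]
              have : 0 ≤ (n : ℝ) ^ (n + 1) * |a i| ^ (n + 1) := by positivity
              linarith
    calc (1 + ‖a‖) ^ (n + 1) * ‖ca G a s η‖
        ≤ 2 ^ (n + 1) * (1 + (n : ℝ) ^ (n + 1) * |a i| ^ (n + 1)) * ‖ca G a s η‖ :=
          mul_le_mul_of_nonneg_right h6 (norm_nonneg _)
      _ = 2 ^ (n + 1) * (‖ca G a s η‖ + (n : ℝ) ^ (n + 1) * (|a i| ^ (n + 1) * ‖ca G a s η‖)) := by
          ring
      _ ≤ 2 ^ (n + 1) * (E₀ + (n : ℝ) ^ (n + 1) * ∑ i, E₁ i) := by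
          apply mul_le_mul_of_nonneg_left _ (by positivity)
          apply add_le_add (h0 a s η)
          apply mul_le_mul_of_nonneg_left _ (by positivity)
          exact (h1 a s η i).trans (Finset.single_le_sum (fun j _ => hE0 j) (Finset.mem_univ i))
  refine ⟨2 ^ (n + 1) * (E₀ + (n : ℝ) ^ (n + 1) * ∑ i, E₁ i), ?_, fun a s η => ?_⟩
  · have : 0 ≤ ∑ i, E₁ i := Finset.sum_nonneg fun i _ => hE0 i
    positivity
  · have hpos : 0 < 1 + ‖a‖ := by positivity
    rw [Real.rpow_neg hpos.le, ← div_eq_mul_inv, le_div_iff₀ (by positivity), mul_comm]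
    have e1 : (1 + ‖a‖) ^ ((n : ℝ) + 1) = (1 + ‖a‖) ^ (n + 1) := by
      rw [← Real.rpow_natCast]; push_cast; rfl
    rw [e1]
    exact hdec a s η

/-! ## the symbols -/

/-- the dyadic cutoff -/
noncomputable def qs {n : ℕ} (lam Lam : ℝ) (ξ : EE (n + 1)) : ℂ :=
  ((chi (‖ξ‖ / lam) * chi (hor ξ / Lam) : ℝ) : ℂ)

/-- the symbol of KERN for `r = 1` and `W, X₁, X₂` built from `chis` -/
noncomputable def Ks {n : ℕ} (lam Lam : ℝ) (a : EE n) (ξ : EE (n + 1)) : ℂ :=
  e (inner ℝ a ((1 / hor ξ) • pr ξ)) * ((chis ‖(1 / hor ξ) • pr ξ‖ : ℝ) : ℂ) *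
    ((chis (hor ξ / Lam) : ℝ) : ℂ) * ((chis (‖ξ‖ / lam) : ℝ) : ℂ)

/-- the symbol of `wa` -/
noncomputable def bs {n : ℕ} (lam Lam t : ℝ) (G : EE (n + 1) → ℂ) (a : EE n) (ξ : EE (n + 1)) : ℂ :=
  e (t * ‖ξ‖) * ((chi (‖ξ‖ / lam) * chi (hor ξ / Lam) : ℝ) : ℂ) * ca G a (hor ξ) (ξ (Fin.last n))

theorem wa_eq {n : ℕ} (lam Lam t : ℝ) (G : EE (n + 1) → ℂ) (a : EE n) (x : EE (n + 1)) :
    wa lam Lam t G a x = MK (bs lam Lam t G a) x := rfl

theorem qs_norm_le {n : ℕ} (lam Lam : ℝ) (ξ : EE (n + 1)) : ‖qs lam Lam ξ‖ ≤ 1 := by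
  unfold qs
  rw [Complex.norm_real, Real.norm_eq_abs, abs_mul]
  calc |chi (‖ξ‖ / lam)| * |chi (hor ξ / Lam)| ≤ 1 * 1 :=
        mul_le_mul (chi_abs_le _) (chi_abs_le _) (abs_nonneg _) zero_le_one
    _ = 1 := one_mul 1

theorem continuous_qs {n : ℕ} (lam Lam : ℝ) : Continuous (fun ξ : EE (n + 1) => qs lam Lam ξ) := by
  unfold qs
  refine Complex.continuous_ofReal.comp ((chi_contDiff.continuous.comp (by fun_prop)).mul
    (chi_contDiff.continuous.comp (continuous_hor.div_const _)))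

theorem qs_supp {n : ℕ} {lam Lam : ℝ} (hlam : 0 < lam) (_ : 0 < Lam) {ξ : EE (n + 1)}
    (h : qs lam Lam ξ ≠ 0) : ‖ξ‖ ≤ 2 * lam ∧ hor ξ ≠ 0 := by
  unfold qs at h
  have h1 : chi (‖ξ‖ / lam) ≠ 0 := fun hc => h (by rw [hc]; simp)
  have h2 : chi (hor ξ / Lam) ≠ 0 := fun hc => h (by rw [hc]; simp)
  constructor
  · have := (chi_supp h1).2
    rwa [div_le_iff₀ hlam] at this
  · intro hc
    have := (chi_supp h2).1
    rw [hc, zero_div] at this
    linarith

theorem Ks_norm_le {n : ℕ} (lam Lam : ℝ) (a : EE n) (ξ : EE (n + 1)) : ‖Ks lam Lam a ξ‖ ≤ 1 := by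
  unfold Ks
  rw [norm_mul, norm_mul, norm_mul, norm_e, one_mul, Complex.norm_real, Complex.norm_real,
    Complex.norm_real, Real.norm_eq_abs, Real.norm_eq_abs, Real.norm_eq_abs]
  calc _ ≤ (1 : ℝ) * 1 * 1 := by
        gcongr <;> exact chis_abs_le _
    _ = 1 := by norm_num

theorem Ks_supp {n : ℕ} {lam Lam : ℝ} (hlam : 0 < lam) {a : EE n} {ξ : EE (n + 1)}
    (h : Ks lam Lam a ξ ≠ 0) : ‖ξ‖ ≤ 4 * lam := by
  unfold Ks at h
  have h1 : chis (‖ξ‖ / lam) ≠ 0 := fun hc => h (by rw [hc]; simp)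
  have := (chis_supp h1).2
  rwa [div_le_iff₀ hlam] at this

theorem Ks_continuous {n : ℕ} {lam Lam : ℝ} (hLam : 0 < Lam) (a : EE n) :
    Continuous (fun ξ : EE (n + 1) => Ks lam Lam a ξ) := by
  rw [continuous_iff_continuousAt]
  intro ξ
  by_cases hξ : hor ξ = 0
  · have h : (fun ξ : EE (n + 1) => Ks lam Lam a ξ) =ᶠ[nhds ξ] fun _ => 0 := by
      have h1 : ∀ᶠ z in nhds ξ, hor z < Lam / 8 :=
        continuous_hor.continuousAt.eventually_lt_const (by
          change hor ξ < Lam / 8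
          rw [hξ]; positivity)
      filter_upwards [h1] with z hz
      unfold Ks
      have h2 : chis (hor z / Lam) = 0 := by
        by_contra hc
        have := (chis_supp hc).1
        rw [le_div_iff₀ hLam] at this
        linarith
      rw [h2]; simp
    exact continuousAt_const.congr h.symm
  · have h1 : ContinuousAt (fun ξ : EE (n + 1) => (1 / hor ξ) • pr ξ) ξ :=
      (continuousAt_const.div continuous_hor.continuousAt hξ).smul continuous_pr.continuousAt
    unfold Ks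
    refine ContinuousAt.mul (ContinuousAt.mul (ContinuousAt.mul ?_ ?_) ?_) ?_
    · exact continuous_e.continuousAt.comp (continuousAt_const.inner h1)
    · exact Complex.continuous_ofReal.continuousAt.comp
        (chis_contDiff.continuous.continuousAt.comp h1.norm)
    · exact (Complex.continuous_ofReal.comp
        (chis_contDiff.continuous.comp (continuous_hor.div_const _))).continuousAt
    · exact (Complex.continuous_ofReal.comp
        (chis_contDiff.continuous.comp (by fun_prop))).continuousAt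

theorem integrable_of_ball {d : ℕ} {b : EE d → ℂ} (hm : Measurable b) {D R : ℝ}
    (hb : ∀ ξ, ‖b ξ‖ ≤ D) (hs : ∀ ξ, b ξ ≠ 0 → ‖ξ‖ ≤ R) : Integrable b := by
  have h1 : Integrable (indicator (closedBall (0 : EE d) R) (fun _ => (D : ℝ))) := by
    rw [integrable_indicator_iff measurableSet_closedBall]
    exact integrableOn_const (measure_closedBall_lt_top).ne
  refine h1.mono' hm.aestronglyMeasurable (Filter.Eventually.of_forall fun ξ => ?_)
  by_cases h : b ξ = 0
  · rw [h, norm_zero]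
    exact indicator_nonneg (fun _ _ => le_trans (norm_nonneg _) (hb ξ)) _
  · rw [indicator_of_mem (by rw [mem_closedBall_zero_iff]; exact hs ξ h)]
    exact hb ξ

theorem Ks_integrable {n : ℕ} {lam Lam : ℝ} (hlam : 0 < lam) (hLam : 0 < Lam) (a : EE n) :
    Integrable (fun ξ : EE (n + 1) => Ks lam Lam a ξ) :=
  integrable_of_ball (Ks_continuous hLam a).measurable (Ks_norm_le lam Lam a)
    (fun _ h => Ks_supp hlam h)

/-- joint measurability of the symbol of `wa` (without the factor depending on time) -/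
theorem measurable_cah {n : ℕ} {G : EE (n + 1) → ℂ} (hG : Measurable G) :
    Measurable (fun q : EE n × EE (n + 1) => ca G q.1 (hor q.2) (q.2 (Fin.last n))) := by
  have h := measurable_ca (n := n) hG
  refine h.comp (g := fun q : EE n × (ℝ × ℝ) => ca G q.1 q.2.1 q.2.2)
    (f := fun q : EE n × EE (n + 1) => (q.1, (hor q.2, q.2 (Fin.last n)))) ?_
  refine measurable_fst.prodMk (Measurable.prodMk ?_ ?_)
  · exact continuous_hor.measurable.comp measurable_snd
  · fun_prop

theorem bs_measurable {n : ℕ} {G : EE (n + 1) → ℂ} (hG : Measurable G) (lam Lam : ℝ) :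
    Measurable (fun q : (ℝ × EE n) × EE (n + 1) => bs lam Lam q.1.1 G q.1.2 q.2) := by
  unfold bs
  refine Measurable.mul (Measurable.mul ?_ ?_) ?_
  · exact measurable_e.comp (by fun_prop)
  · exact (continuous_qs (n := n) lam Lam).measurable.comp measurable_snd
  · exact (measurable_cah (n := n) hG).comp (g := fun q : EE n × EE (n + 1) =>
      ca G q.1 (hor q.2) (q.2 (Fin.last n))) (f := fun q : (ℝ × EE n) × EE (n + 1) => (q.1.2, q.2))
      (by fun_prop)

theorem Ks_measurable {n : ℕ} (lam Lam : ℝ) :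
    Measurable (fun q : EE n × EE (n + 1) => Ks lam Lam q.1 q.2) := by
  have hh : Measurable (fun q : EE n × EE (n + 1) => hor q.2) :=
    continuous_hor.measurable.comp measurable_snd
  have hp : Measurable (fun q : EE n × EE (n + 1) => (1 / hor q.2) • pr q.2) :=
    (measurable_const.div hh).smul (continuous_pr.measurable.comp measurable_snd)
  unfold Ks
  refine Measurable.mul (Measurable.mul (Measurable.mul ?_ ?_) ?_) ?_
  · exact measurable_e.comp (measurable_fst.inner hp)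
  · exact Complex.measurable_ofReal.comp (chis_contDiff.continuous.measurable.comp hp.norm)
  · exact Complex.measurable_ofReal.comp (chis_contDiff.continuous.measurable.comp (hh.div_const _))
  · exact Complex.measurable_ofReal.comp (chis_contDiff.continuous.measurable.comp
      (measurable_snd.norm.div_const _))

theorem bs_norm_le {n : ℕ} {lam Lam t : ℝ} {G : EE (n + 1) → ℂ} {a : EE n} {D : ℝ}
    (hD : ∀ s η : ℝ, ‖ca G a s η‖ ≤ D) (ξ : EE (n + 1)) : ‖bs lam Lam t G a ξ‖ ≤ D := by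
  unfold bs
  rw [norm_mul, norm_mul, norm_e, one_mul]
  have := qs_norm_le lam Lam ξ
  unfold qs at this
  calc _ ≤ 1 * D := mul_le_mul this (hD _ _) (norm_nonneg _) zero_le_one
    _ = D := one_mul D

theorem bs_supp {n : ℕ} {lam Lam t : ℝ} (hlam : 0 < lam) (hLam : 0 < Lam) {G : EE (n + 1) → ℂ}
    {a : EE n} {ξ : EE (n + 1)} (h : bs lam Lam t G a ξ ≠ 0) : ‖ξ‖ ≤ 2 * lam := by
  unfold bs at h
  exact (qs_supp hlam hLam (fun hc => h (by unfold qs at hc; rw [hc]; simp))).1

theorem bs_integrable {n : ℕ} {lam Lam t : ℝ} (hlam : 0 < lam) (hLam : 0 < Lam)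
    {G : EE (n + 1) → ℂ} (hG : Measurable G) {a : EE n} {D : ℝ}
    (hD : ∀ s η : ℝ, ‖ca G a s η‖ ≤ D) : Integrable (bs lam Lam t G a) := by
  refine integrable_of_ball ?_ (bs_norm_le hD) (fun _ h => bs_supp hlam hLam h)
  exact (bs_measurable (n := n) hG lam Lam).comp (g := fun q : (ℝ × EE n) × EE (n + 1) =>
    bs lam Lam q.1.1 G q.1.2 q.2) (f := fun ξ : EE (n + 1) => ((t, a), ξ)) (by fun_prop)

/-- the product of the two symbols -/
theorem Ks_mul_bs {n : ℕ} {lam Lam : ℝ} (hlam : 0 < lam) (hLam : 0 < Lam) (t : ℝ)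
    (G : EE (n + 1) → ℂ) (a : EE n) (ξ : EE (n + 1)) :
    Ks lam Lam a ξ * bs lam Lam t G a ξ = e (t * ‖ξ‖) * qs lam Lam ξ *
      (e (inner ℝ a ((1 / hor ξ) • pr ξ)) * ca G a (hor ξ) (ξ (Fin.last n))) := by
  by_cases hq : qs lam Lam ξ = 0
  · have h1 : bs lam Lam t G a ξ = 0 := by
      unfold bs; unfold qs at hq; rw [hq]; simp
    rw [h1, hq]; simp
  · have h0 := (qs_supp hlam hLam hq).2
    unfold Ks bs qs
    rw [norm_pr_div h0, chis_one (by norm_num) (by norm_num)]
    have h1 : ((chis (hor ξ / Lam) : ℝ) : ℂ) * ((chis (‖ξ‖ / lam) : ℝ) : ℂ) *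
        ((chi (‖ξ‖ / lam) * chi (hor ξ / Lam) : ℝ) : ℂ) =
        ((chi (‖ξ‖ / lam) * chi (hor ξ / Lam) : ℝ) : ℂ) := by
      rw [← Complex.ofReal_mul, ← Complex.ofReal_mul]
      congr 1
      calc _ = (chis (‖ξ‖ / lam) * chi (‖ξ‖ / lam)) * (chis (hor ξ / Lam) * chi (hor ξ / Lam)) := by
            ring
        _ = _ := by rw [chis_mul_chi, chis_mul_chi]
    calc _ = e (t * ‖ξ‖) * (((chis (hor ξ / Lam) : ℝ) : ℂ) * ((chis (‖ξ‖ / lam) : ℝ) : ℂ) *
        ((chi (‖ξ‖ / lam) * chi (hor ξ / Lam) : ℝ) : ℂ)) *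
        (e (inner ℝ a ((1 / hor ξ) • pr ξ)) * ca G a (hor ξ) (ξ (Fin.last n))) := by
          push_cast; ring
      _ = _ := by rw [h1]

/-- measurability of kernels depending on parameters -/
theorem MK_measurable_param {d : ℕ} {α : Type*} [MeasurableSpace α] {b : α → EE d → ℂ}
    (hb : Measurable (fun q : α × EE d => b q.1 q.2)) :
    Measurable (fun q : α × EE d => MK (b q.1) q.2) := by
  have h1 : Measurable (fun z : (α × EE d) × EE d => e (inner ℝ z.1.2 z.2) * b z.1.1 z.2) := by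
    refine Measurable.mul (measurable_e.comp (by fun_prop)) ?_
    exact hb.comp (g := fun q : α × EE d => b q.1 q.2)
      (f := fun z : (α × EE d) × EE d => (z.1.1, z.2)) (by fun_prop)
  have h2 : StronglyMeasurable (fun q : α × EE d => ∫ ξ : EE d, e (inner ℝ q.2 ξ) * b q.1 ξ) :=
    StronglyMeasurable.integral_prod_right h1.stronglyMeasurable
  exact h2.measurable

theorem MK_measurable {d : ℕ} {b : EE d → ℂ} (hb : Measurable b) : Measurable (MK b) := by
  have h := MK_measurable_param (d := d) (α := Unit) (b := fun _ => b) (hb.comp measurable_snd)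
  exact h.comp (g := fun q : Unit × EE d => MK b q.2) (f := fun x : EE d => ((), x)) (by fun_prop)

/-- the piece `T^m f` as an average over `a` -/
theorem piece_eq (hINVA : T_INVA) (hANG : T_ANG) (hROT : T_ROT) {n : ℕ} (hn : 1 ≤ n)
    {lam Lam : ℝ} (hlam : 0 < lam) (hLam : 0 < Lam) (t : ℝ) (G : 𝓢(EE (n + 1), ℂ))
    (x : EE (n + 1)) :
    MK (fun ξ => e (t * ‖ξ‖) * qs lam Lam ξ * G ξ) x =
      ∫ a : EE n, MK (fun ξ => Ks lam Lam a ξ * bs lam Lam t G a ξ) x := by
  obtain ⟨D, hD0, hD⟩ := ca_decay hANG hROT hn G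
  have hGm : Measurable (G : EE (n + 1) → ℂ) := G.continuous.measurable
  have hprod : Integrable (fun q : EE (n + 1) × EE n =>
      e (inner ℝ x q.1) * (Ks lam Lam q.2 q.1 * bs lam Lam t G q.2 q.1)) (volume.prod volume) := by
    have h1 : Integrable (indicator (closedBall (0 : EE (n + 1)) (2 * lam)) (fun _ => (1 : ℝ))) := by
      rw [integrable_indicator_iff measurableSet_closedBall]
      exact integrableOn_const (measure_closedBall_lt_top).ne
    have h2 : Integrable (fun a : EE n => D * (1 + ‖a‖) ^ (-((n : ℝ) + 1))) := by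
      apply Integrable.const_mul
      apply integrable_one_add_norm
      rw [finrank_euclideanSpace_fin]
      linarith
    refine (h1.mul_prod h2).mono' ?_ ?_
    · refine Measurable.aestronglyMeasurable ?_
      refine Measurable.mul (measurable_e.comp (by fun_prop)) (Measurable.mul ?_ ?_)
      · exact (Ks_measurable (n := n) lam Lam).comp (g := fun q : EE n × EE (n + 1) =>
          Ks lam Lam q.1 q.2) (f := fun q : EE (n + 1) × EE n => (q.2, q.1)) (by fun_prop)
      · exact (bs_measurable (n := n) hGm lam Lam).comp (g := fun q : (ℝ × EE n) × EE (n + 1) =>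
          bs lam Lam q.1.1 G q.1.2 q.2) (f := fun q : EE (n + 1) × EE n => ((t, q.2), q.1))
          (by fun_prop)
    · refine Filter.Eventually.of_forall fun q => ?_
      obtain ⟨ξ, a⟩ := q
      simp only
      rw [norm_mul, norm_e, one_mul, norm_mul]
      by_cases hb : bs lam Lam t G a ξ = 0
      · rw [hb, norm_zero, mul_zero]
        refine mul_nonneg (indicator_nonneg (fun _ _ => zero_le_one) _) ?_
        positivity
      · rw [indicator_of_mem (by rw [mem_closedBall_zero_iff]; exact bs_supp hlam hLam hb), one_mul]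
        calc _ ≤ 1 * (D * (1 + ‖a‖) ^ (-((n : ℝ) + 1))) := by
              refine mul_le_mul (Ks_norm_le _ _ _ _) (bs_norm_le (fun s η => hD a s η) ξ)
                (norm_nonneg _) zero_le_one
          _ = _ := one_mul _
  have hswap := integral_integral_swap (f := fun (ξ : EE (n + 1)) (a : EE n) =>
    e (inner ℝ x ξ) * (Ks lam Lam a ξ * bs lam Lam t G a ξ)) hprod
  unfold MK
  rw [← hswap]
  congr 1
  ext ξ
  simp_rw [Ks_mul_bs hlam hLam t]
  rw [integral_const_mul, integral_const_mul]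
  by_cases hq : qs lam Lam ξ = 0
  · rw [hq]; simp
  · have h0 := (qs_supp hlam hLam hq).2
    rw [← (hINVA n hn G ξ h0).2]

/-- Young's inequality for the products of symbols -/
theorem young_a (hYG : T_YG) {n : ℕ} {p lam Lam t : ℝ} (hp : 1 ≤ p) (hlam : 0 < lam)
    (hLam : 0 < Lam) {G : EE (n + 1) → ℂ} (hG : Measurable G) {a : EE n} {D : ℝ}
    (hD : ∀ s η : ℝ, ‖ca G a s η‖ ≤ D) (hfin : ∫⁻ x, ‖MK (Ks (n := n) lam Lam a) x‖ₑ ≠ ⊤) :
    ∫⁻ x, ‖MK (fun ξ => Ks lam Lam a ξ * bs lam Lam t G a ξ) x‖ₑ ^ p ≤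
      (∫⁻ x, ‖MK (Ks (n := n) lam Lam a) x‖ₑ) ^ p * ∫⁻ x, ‖wa lam Lam t G a x‖ₑ ^ p := by
  have hbm : Measurable (bs lam Lam t G a) :=
    (bs_measurable (n := n) hG lam Lam).comp (g := fun q : (ℝ × EE n) × EE (n + 1) =>
      bs lam Lam q.1.1 G q.1.2 q.2) (f := fun ξ : EE (n + 1) => ((t, a), ξ)) (by fun_prop)
  have hKm : Measurable (MK (Ks (n := n) lam Lam a)) := MK_measurable (Ks_continuous hLam a).measurable
  have hKi : Integrable (MK (Ks (n := n) lam Lam a)) :=
    ⟨hKm.aestronglyMeasurable, by rw [hasFiniteIntegral_iff_enorm]; exact lt_top_iff_ne_top.2 hfin⟩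
  have hbi := bs_integrable (t := t) hlam hLam hG hD
  have hY := hYG (EE (n + 1)) volume (fun x => ‖MK (Ks (n := n) lam Lam a) x‖ₑ)
    (fun x => ‖wa lam Lam t G a x‖ₑ) p hKm.enorm (by
      have : Measurable (wa lam Lam t G a) := MK_measurable hbm
      exact this.enorm) hp
  refine le_trans (lintegral_mono fun x => ?_) hY
  apply ENNReal.rpow_le_rpow _ (by linarith)
  rw [MK_mul (Ks_continuous hLam a) (Ks_integrable hlam hLam a) hKi hbi]
  refine (enorm_integral_le_lintegral_enorm _).trans (lintegral_mono fun y => ?_)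
  rw [enorm_mul]
  exact le_of_eq rfl

/-- Hölder's inequality in `a` -/
theorem holder_a {n : ℕ} {p : ℝ} (hp : 1 < p) (F : EE n → ℝ≥0∞) (hF : Measurable F) :
    (∫⁻ a, F a) ^ p ≤ (∫⁻ a : EE n, ENNReal.ofReal ((1 + ‖a‖) ^ (-((n : ℝ) + 1)))) ^ (p - 1) *
      ∫⁻ a, ENNReal.ofReal ((1 + ‖a‖) ^ (((n : ℝ) + 1) * (p - 1))) * F a ^ p := by
  set q : ℝ := p / (p - 1) with hq
  have hp1 : 0 < p - 1 := by linarith
  have hp0 : 0 < p := by linarith
  have hq0 : 0 < q := by positivity
  have hpq : q.HolderConjugate p := by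
    rw [Real.holderConjugate_iff]
    constructor
    · rw [hq, lt_div_iff₀ hp1]; linarith
    · rw [hq]; field_simp; ring
  have hm1 : Measurable (fun a : EE n => ENNReal.ofReal ((1 + ‖a‖) ^ (-(((n : ℝ) + 1) / q)))) := by
    fun_prop
  have hm2 : Measurable (fun a : EE n => ENNReal.ofReal ((1 + ‖a‖) ^ (((n : ℝ) + 1) / q)) * F a) :=
    Measurable.mul (by fun_prop) hF
  have h1 := ENNReal.lintegral_mul_le_Lp_mul_Lq (volume : Measure (EE n)) hpq
    hm1.aemeasurable hm2.aemeasurable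
  have h2 : ∀ a : EE n, ((fun a : EE n => ENNReal.ofReal ((1 + ‖a‖) ^ (-(((n : ℝ) + 1) / q)))) *
      (fun a : EE n => ENNReal.ofReal ((1 + ‖a‖) ^ (((n : ℝ) + 1) / q)) * F a)) a = F a := by
    intro a
    have hpos : 0 < 1 + ‖a‖ := by positivity
    simp only [Pi.mul_apply]
    rw [← mul_assoc, ← ENNReal.ofReal_mul (by positivity), ← Real.rpow_add hpos]
    simp
  simp_rw [h2] at h1
  have h3 : ∀ a : EE n, ENNReal.ofReal ((1 + ‖a‖) ^ (-(((n : ℝ) + 1) / q))) ^ q =
      ENNReal.ofReal ((1 + ‖a‖) ^ (-((n : ℝ) + 1))) := by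
    intro a
    have hpos : 0 < 1 + ‖a‖ := by positivity
    rw [ENNReal.ofReal_rpow_of_nonneg (by positivity) hq0.le, ← Real.rpow_mul hpos.le]
    congr 2
    field_simp
  have h4 : ∀ a : EE n, (ENNReal.ofReal ((1 + ‖a‖) ^ (((n : ℝ) + 1) / q)) * F a) ^ p =
      ENNReal.ofReal ((1 + ‖a‖) ^ (((n : ℝ) + 1) * (p - 1))) * F a ^ p := by
    intro a
    have hpos : 0 < 1 + ‖a‖ := by positivity
    rw [ENNReal.mul_rpow_of_nonneg _ _ hp0.le, ENNReal.ofReal_rpow_of_nonneg (by positivity) hp0.le,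
      ← Real.rpow_mul hpos.le]
    congr 3
    rw [hq]
    field_simp
  simp_rw [h3, h4] at h1
  calc (∫⁻ a, F a) ^ p ≤ ((∫⁻ a : EE n, ENNReal.ofReal ((1 + ‖a‖) ^ (-((n : ℝ) + 1)))) ^ (1 / q) *
      (∫⁻ a, ENNReal.ofReal ((1 + ‖a‖) ^ (((n : ℝ) + 1) * (p - 1))) * F a ^ p) ^ (1 / p)) ^ p :=
        ENNReal.rpow_le_rpow h1 hp0.le
    _ = _ := by
        rw [ENNReal.mul_rpow_of_nonneg _ _ hp0.le, ← ENNReal.rpow_mul, ← ENNReal.rpow_mul]
        congr 1
        · congr 1
          rw [hq]; field_simp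
        · rw [one_div, inv_mul_cancel₀ hp0.ne', ENNReal.rpow_one]

end Pool.Agent.H89.LS
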